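import Pool.Agent.H84.Cartan.MainIneq

/-!
# The growth argument and removal of common zeros
-/

open Matrix Finset Metric Real

namespace Pool.Agent.H84.Cartan

/-- The growth lemma. -/
theorem growth {T : ℝ → ℝ} {A B C R₀ : ℝ} (hA : 0 < A) (hB : 0 ≤ B)
    (hmono : ∀ s t, 0 < s → s ≤ t → t ≤ R₀ → T s ≤ T t)
    (hineq : ∀ s R, 0 < s → 0 < R → R ≤ 1 → s + 2 * R ≤ R₀ →
      (A + 1) * T s ≤ C + B * Real.log (1 / R) + A * T (s + 2 * R)) {r : ℝ} (hr : 0 < r)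
    (hr1 : r + 1 ≤ R₀) : T r ≤ C + (A + 2) * (B * Real.log 2) := by
  by_contra hcon
  push Not at hcon
  set β : ℝ := B * Real.log 2 with hβ
  have hβ0 : 0 ≤ β := mul_nonneg hB (Real.log_nonneg (by norm_num))
  set α : ℝ := C + (A + 2) * β with hα
  let rr : ℕ → ℝ := fun j => r + 1 - (1 / 2) ^ j
  have hrr0 : rr 0 = r := by simp [rr]
  have hrrs : ∀ j, rr (j + 1) = rr j + 2 * ((1 / 2) ^ (j + 2)) := by
    intro j
    simp only [rr, pow_succ]
    ring
  have hpow1 : ∀ j : ℕ, ((1 : ℝ) / 2) ^ j ≤ 1 := fun j => pow_le_one₀ (by norm_num) (by norm_num)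
  have hrrpos : ∀ j, 0 < rr j := by
    intro j
    have := hpow1 j
    simp only [rr]
    linarith
  have hrrle : ∀ j, rr j ≤ r + 1 := by
    intro j
    have : (0 : ℝ) < (1 / 2) ^ j := by positivity
    simp only [rr]
    linarith
  let s : ℕ → ℝ := fun j => T (rr j) - α - β * j
  have hstep : ∀ j, (1 + 1 / A) * s j ≤ s (j + 1) := by
    intro j
    have h1 := hineq (rr j) ((1 / 2) ^ (j + 2)) (hrrpos j) (by positivity) (hpow1 _)
      (by rw [← hrrs]; exact (hrrle _).trans hr1)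
    rw [← hrrs] at h1
    have h2 : Real.log (1 / (1 / 2) ^ (j + 2)) = (j + 2 : ℝ) * Real.log 2 := by
      rw [one_div, ← inv_pow, one_div, inv_inv, Real.log_pow]
      push_cast
      ring
    rw [h2] at h1
    have h3 : A * s (j + 1) ≥ (A + 1) * s j := by
      simp only [s]
      push_cast
      have e1 : B * ((j + 2 : ℝ) * Real.log 2) = β * (j + 2) := by rw [hβ]; ring
      rw [e1] at h1
      nlinarith
    have h4 : (1 + 1 / A) * s j = ((A + 1) * s j) / A := by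
      field_simp
    rw [h4, div_le_iff₀ hA]
    linarith
  have hs0 : 0 < s 0 := by
    simp only [s, hrr0]
    simp
    linarith
  have hge : ∀ j : ℕ, (1 + 1 / A) ^ j * s 0 ≤ s j := by
    intro j
    induction j with
    | zero => simp
    | succ j ih =>
      refine le_trans ?_ (hstep j)
      rw [pow_succ, mul_comm ((1 + 1 / A) ^ j), mul_assoc]
      have : (0 : ℝ) ≤ 1 + 1 / A := by positivity
      gcongr
  have htend : Filter.Tendsto (fun j : ℕ => (1 + 1 / A) ^ j) Filter.atTop Filter.atTop :=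
    tendsto_pow_atTop_atTop_of_one_lt (by
      have : 0 < 1 / A := by positivity
      linarith)
  obtain ⟨j, hj⟩ := (htend.eventually_gt_atTop ((T (r + 1) - α) / s 0)).exists
  rw [div_lt_iff₀ hs0] at hj
  have h5 := hge j
  have h6 : s j ≤ T (r + 1) - α := by
    simp only [s]
    have := hmono (rr j) (r + 1) (hrrpos j) (hrrle j) hr1
    have : 0 ≤ β * (j : ℝ) := by positivity
    linarith
  linarith

variable {q : ℕ}

/-- The derivative estimate at the centre. -/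
theorem wron2_le {ψ : Fin (q + 1 + 1) → ℂ → ℂ} (hψ : ∀ i, Differentiable ℂ (ψ i))
    {R₀ : ℝ} (hnc : ∀ z ∈ closedBall (0 : ℂ) R₀, ∃ i, ψ i z ≠ 0) {r : ℝ} (hr : 0 < r)
    (hrR : r ≤ R₀) (i j : Fin (q + 1 + 1)) :
    ‖ψ i 0 * deriv (ψ j) 0 - ψ j 0 * deriv (ψ i) 0‖ ≤
      (2 / r) * Real.exp (2 * (mean ψ r + 1)) := by
  obtain ⟨h, hh, h1, h2⟩ := exists_majorant_tuple hψ hnc hr hrR one_pos
  let χ : Fin (q + 1 + 1) → ℂ → ℂ := fun i w => Complex.exp (-h w) * ψ i w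
  have hχ : ∀ i, Differentiable ℂ (χ i) := fun i => by
    have := hψ i
    fun_prop
  have hχb : ∀ i, ∀ w ∈ closedBall (0 : ℂ) r, ‖χ i w‖ ≤ 1 := by
    intro i w hw
    simp only [χ, norm_mul, Complex.norm_exp, Complex.neg_re, Real.exp_neg]
    rw [inv_mul_le_iff₀ (Real.exp_pos _), mul_one]
    exact h1 w hw i
  have hd : ∀ i, ‖deriv (χ i) 0‖ ≤ 1 / r := fun i =>
    Complex.norm_deriv_le_of_forall_mem_sphere_norm_le hr (hχ i).diffContOnCl
      fun w hw => hχb i w (sphere_subset_closedBall hw)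
  have hv : ∀ i, ‖χ i 0‖ ≤ 1 := fun i => hχb i 0 (mem_closedBall_self hr.le)
  have hχd : ∀ i, deriv (χ i) 0 = -deriv h 0 * Complex.exp (-h 0) * ψ i 0 +
      Complex.exp (-h 0) * deriv (ψ i) 0 := by
    intro i
    have h3 : HasDerivAt (χ i) (Complex.exp (-h 0) * (-deriv h 0) * ψ i 0 +
        Complex.exp (-h 0) * deriv (ψ i) 0) 0 :=
      ((hh 0).hasDerivAt.neg.cexp).mul (hψ i 0).hasDerivAt
    rw [h3.deriv]
    ring
  have key : χ i 0 * deriv (χ j) 0 - χ j 0 * deriv (χ i) 0 =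
      Complex.exp (-h 0) ^ 2 * (ψ i 0 * deriv (ψ j) 0 - ψ j 0 * deriv (ψ i) 0) := by
    rw [hχd, hχd]
    simp only [χ]
    ring
  have h4 : ‖χ i 0 * deriv (χ j) 0 - χ j 0 * deriv (χ i) 0‖ ≤ 2 / r := by
    refine (norm_sub_le _ _).trans ?_
    rw [norm_mul (χ i 0), norm_mul (χ j 0)]
    have e1 : ‖χ i 0‖ * ‖deriv (χ j) 0‖ ≤ 1 * (1 / r) :=
      mul_le_mul (hv i) (hd j) (norm_nonneg _) zero_le_one
    have e2 : ‖χ j 0‖ * ‖deriv (χ i) 0‖ ≤ 1 * (1 / r) :=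
      mul_le_mul (hv j) (hd i) (norm_nonneg _) zero_le_one
    calc _ ≤ 1 * (1 / r) + 1 * (1 / r) := add_le_add e1 e2
      _ = 2 / r := by ring
  rw [key, norm_mul, norm_pow, Complex.norm_exp, Complex.neg_re] at h4
  have h5 : Real.exp (-(h 0).re) ^ 2 * Real.exp (2 * (h 0).re) = 1 := by
    rw [← Real.exp_nat_mul, ← Real.exp_add]
    norm_num
  have h6 : Real.exp (2 * (h 0).re) ≤ Real.exp (2 * (mean ψ r + 1)) :=
    Real.exp_le_exp.mpr (by linarith)
  calc ‖ψ i 0 * deriv (ψ j) 0 - ψ j 0 * deriv (ψ i) 0‖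
      = (Real.exp (-(h 0).re) ^ 2 * ‖ψ i 0 * deriv (ψ j) 0 - ψ j 0 * deriv (ψ i) 0‖) *
        Real.exp (2 * (h 0).re) := by
        rw [mul_assoc, mul_comm ‖_‖, ← mul_assoc, h5, one_mul]
    _ ≤ (2 / r) * Real.exp (2 * (mean ψ r + 1)) := by gcongr

/-- Removal of the common zeros in a disc. -/
theorem remove_zeros {φ : Fin (q + 1 + 1) → ℂ → ℂ} (hφ : ∀ i, Differentiable ℂ (φ i))
    (h0 : φ 0 0 ≠ 0) {R₀ : ℝ} (hR₀ : 0 < R₀) :
    ∃ (g : ℂ → ℂ) (ψ : Fin (q + 1 + 1) → ℂ → ℂ), Differentiable ℂ g ∧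
      (∀ i, Differentiable ℂ (ψ i)) ∧ (∀ i z, φ i z = g z * ψ i z) ∧
      ∀ z ∈ closedBall (0 : ℂ) R₀, ∃ i, ψ i z ≠ 0 := by
  classical
  let P : ℕ → Prop := fun n => ∃ (g : ℂ → ℂ) (ψ : Fin (q + 1 + 1) → ℂ → ℂ), Differentiable ℂ g ∧
      (∀ i, Differentiable ℂ (ψ i)) ∧ (∀ i z, φ i z = g z * ψ i z) ∧ ‖g 0‖ ≤ R₀ ^ n ∧
      ∀ z ∈ sphere (0 : ℂ) (5 * R₀), (4 * R₀) ^ n ≤ ‖g z‖
  have hP0 : P 0 := ⟨fun _ => 1, φ, by fun_prop, hφ, by simp, by simp, by simp⟩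
  -- bound
  obtain ⟨M, hM⟩ : ∃ M, ∀ z ∈ sphere (0 : ℂ) (5 * R₀), ‖φ 0 z‖ ≤ M :=
    (isCompact_sphere _ _).exists_bound_of_continuousOn (hφ 0).continuous.continuousOn
  have hPn : ∀ n, P n → ‖φ 0 0‖ * 4 ^ n ≤ M := by
    rintro n ⟨g, ψ, hg, hψ, hfac, hg0, hgs⟩
    have h1 : ‖ψ 0 0‖ ≤ M / (4 * R₀) ^ n := by
      have h5 : (0 : ℝ) < 5 * R₀ := by positivity
      apply Complex.norm_le_of_forall_mem_frontier_norm_le (isBounded_ball (x := (0 : ℂ)) (r := 5 * R₀))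
        (hψ 0).diffContOnCl
      · intro z hz
        rw [frontier_ball _ h5.ne'] at hz
        have h2 := hgs z hz
        have h3 := hM z hz
        rw [hfac, norm_mul] at h3
        rw [le_div_iff₀ (by positivity)]
        calc ‖ψ 0 z‖ * (4 * R₀) ^ n ≤ ‖ψ 0 z‖ * ‖g z‖ := by gcongr
          _ = ‖g z‖ * ‖ψ 0 z‖ := mul_comm _ _
          _ ≤ M := h3
      · exact subset_closure (mem_ball_self h5)
    have h2 : ‖φ 0 0‖ ≤ R₀ ^ n * (M / (4 * R₀) ^ n) := by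
      rw [hfac, norm_mul]
      gcongr
    have h3 : R₀ ^ n * (M / (4 * R₀) ^ n) = M / 4 ^ n := by
      rw [mul_pow]
      field_simp
    rw [h3, le_div_iff₀ (by positivity)] at h2
    exact h2
  have hex : ∃ n, P n ∧ ¬ P (n + 1) := by
    by_contra hcon
    push Not at hcon
    have hall : ∀ n, P n := fun n => Nat.rec hP0 (fun n ih => hcon n ih) n
    have htend : Filter.Tendsto (fun n : ℕ => (4 : ℝ) ^ n) Filter.atTop Filter.atTop :=
      tendsto_pow_atTop_atTop_of_one_lt (by norm_num)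
    obtain ⟨n, hn⟩ := (htend.eventually_gt_atTop (M / ‖φ 0 0‖)).exists
    rw [div_lt_iff₀ (norm_pos_iff.mpr h0)] at hn
    have := hPn n (hall n)
    linarith
  obtain ⟨n, ⟨g, ψ, hg, hψ, hfac, hg0, hgs⟩, hnot⟩ := hex
  refine ⟨g, ψ, hg, hψ, hfac, ?_⟩
  intro a ha
  by_contra hcon
  push Not at hcon
  apply hnot
  have ha' : ‖a‖ ≤ R₀ := by simpa using ha
  refine ⟨fun z => g z * (z - a), fun i => dslope (ψ i) a, by fun_prop, fun i => ?_, fun i z => ?_,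
    ?_, ?_⟩
  · rw [← differentiableOn_univ]
    exact (Complex.differentiableOn_dslope (Filter.univ_mem)).mpr (hψ i).differentiableOn
  · have := sub_smul_dslope (ψ i) a z
    rw [hcon i, sub_zero, smul_eq_mul] at this
    rw [hfac, ← this]
    ring
  · rw [norm_mul, pow_succ]
    gcongr
    simpa using ha'
  · intro z hz
    rw [norm_mul, pow_succ]
    have hz' : ‖z‖ = 5 * R₀ := by simpa using hz
    have : 4 * R₀ ≤ ‖z - a‖ := by
      have := norm_sub_norm_le z a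
      linarith
    have h4 := hgs z hz
    gcongr

end Pool.Agent.H84.Cartan
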