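import Pool.Agent.H84.Cartan.LocEst
import Pool.Agent.H84.Cartan.Growth

/-!
# The main inequality on discs
-/

open Matrix Finset Metric Real Filter Topology

namespace Pool.Agent.H84.Cartan.Loc

open Pool.Agent.H84.Cartan

variable {q : ℕ} {U : Set ℂ}

lemma continuousAt_nrm {ψ : Fin (q + 1 + 1) → ℂ → ℂ} {z : ℂ} (hψ : ∀ i, AnalyticAt ℂ (ψ i) z) :
    ContinuousAt (nrm ψ) z := by
  unfold nrm
  exact (continuousAt_pi.mpr fun i => (hψ i).continuousAt).norm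

lemma continuousOn_log_nrm {ψ : Fin (q + 1 + 1) → ℂ → ℂ} {R₀ : ℝ}
    (hψ : ∀ i, AnalyticOnNhd ℂ (ψ i) (closedBall 0 R₀))
    (hnc : ∀ z ∈ closedBall (0 : ℂ) R₀, ∃ i, ψ i z ≠ 0) :
    ContinuousOn (fun z => Real.log (nrm ψ z)) (closedBall 0 R₀) :=
  ContinuousOn.log (fun z hz => (continuousAt_nrm fun i => hψ i z hz).continuousWithinAt)
    fun z hz => (nrm_pos (hnc z hz)).ne'

/-- A holomorphic majorant of the tuple. -/
lemma exists_majorant_tuple {ψ : Fin (q + 1 + 1) → ℂ → ℂ} {R₀ : ℝ}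
    (hψ : ∀ i, AnalyticOnNhd ℂ (ψ i) (closedBall 0 R₀))
    (hnc : ∀ z ∈ closedBall (0 : ℂ) R₀, ∃ i, ψ i z ≠ 0) {r : ℝ} (hr : 0 < r)
    (hrR : r ≤ R₀) {ε : ℝ} (hε : 0 < ε) :
    ∃ h : ℂ → ℂ, Differentiable ℂ h ∧ (∀ w ∈ closedBall (0 : ℂ) r, ∀ i, ‖ψ i w‖ ≤ exp (h w).re) ∧
      (h 0).re ≤ mean ψ r + ε := by
  have hsub' : closedBall (0 : ℂ) r ⊆ closedBall 0 R₀ := closedBall_subset_closedBall hrR
  have hsub : sphere (0 : ℂ) r ⊆ closedBall 0 R₀ := sphere_subset_closedBall.trans hsub'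
  obtain ⟨h, hh, h1, h2⟩ := exists_majorant hr ((continuousOn_log_nrm hψ hnc).mono hsub) hε
  refine ⟨h, hh, fun w hw i => ?_, h2⟩
  have := norm_le_exp_of_sphere (φ := ψ i) (C := 1) hr
    (fun w hw => (hψ i w (hsub' hw)).differentiableAt.differentiableWithinAt) hh
    (fun w hw => ?_) hw
  · simpa using this
  · rw [one_mul]
    refine (norm_le_nrm ψ w i).trans ?_
    rw [← Real.exp_log (nrm_pos (hnc w (hsub hw)))]
    exact Real.exp_le_exp.mpr (h1 w hw)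

/-- `u(0) ≤ m(r)`. -/
theorem log_nrm_le_mean {ψ : Fin (q + 1 + 1) → ℂ → ℂ} {R₀ : ℝ}
    (hψ : ∀ i, AnalyticOnNhd ℂ (ψ i) (closedBall 0 R₀))
    (hnc : ∀ z ∈ closedBall (0 : ℂ) R₀, ∃ i, ψ i z ≠ 0) {r : ℝ} (hr : 0 < r)
    (hrR : r ≤ R₀) : Real.log (nrm ψ 0) ≤ mean ψ r := by
  apply le_of_forall_pos_le_add
  intro ε hε
  obtain ⟨h, hh, h1, h2⟩ := Loc.exists_majorant_tuple hψ hnc hr hrR hε
  exact (log_nrm_le (hnc 0 (mem_closedBall_self (hr.le.trans hrR)))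
    (h1 0 (mem_closedBall_self hr.le))).trans h2

/-- Monotonicity of the mean. -/
theorem mean_mono {ψ : Fin (q + 1 + 1) → ℂ → ℂ} {R₀ : ℝ}
    (hψ : ∀ i, AnalyticOnNhd ℂ (ψ i) (closedBall 0 R₀))
    (hnc : ∀ z ∈ closedBall (0 : ℂ) R₀, ∃ i, ψ i z ≠ 0) {r s : ℝ} (hr : 0 < r)
    (hrs : r ≤ s) (hs : s ≤ R₀) : mean ψ r ≤ mean ψ s := by
  apply le_of_forall_pos_le_add
  intro ε hε
  obtain ⟨h, hh, h1, h2⟩ := Loc.exists_majorant_tuple hψ hnc (hr.trans_le hrs) hs hε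
  refine le_trans ?_ h2
  rw [← re_mean hh r]
  have hsub : sphere (0 : ℂ) r ⊆ closedBall 0 R₀ :=
    sphere_subset_closedBall.trans (closedBall_subset_closedBall (hrs.trans hs))
  apply circleAverage_mono
  · exact ContinuousOn.circleIntegrable hr.le ((continuousOn_log_nrm hψ hnc).mono hsub)
  · exact (Complex.continuous_re.comp hh.continuous).continuousOn.circleIntegrable'
  · intro w hw
    rw [abs_of_pos hr] at hw
    apply log_nrm_le (hnc w (hsub hw))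
    exact h1 w ((sphere_subset_closedBall.trans (closedBall_subset_closedBall hrs)) hw)

/-- Zeros of nonzero analytic functions are isolated. -/
lemma eventually_ne_of_analytic (hU : IsPreconnected U) {f : ℂ → ℂ} (hf : AnalyticOnNhd ℂ f U)
    (hne : ∃ z ∈ U, f z ≠ 0) {w : ℂ} (hw : w ∈ U) : ∀ᶠ z in 𝓝[≠] w, f z ≠ 0 := by
  rcases (hf w hw).eventually_eq_zero_or_eventually_ne_zero with h | h
  · exfalso
    obtain ⟨z, hzU, hz⟩ := hne
    exact hz (hf.eqOn_zero_of_preconnected_of_eventuallyEq_zero hU hw h hzU)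
  · exact h

/-- The pointwise estimate, including at the zeros. -/
theorem pointwise_est (hU : IsPreconnected U) {ψ : Fin (q + 1 + 1) → ℂ → ℂ}
    (hψ : ∀ i, AnalyticOnNhd ℂ (ψ i) U) {R₀ : ℝ} (hUR : closedBall 0 R₀ ⊆ U)
    (hnc : ∀ z ∈ closedBall (0 : ℂ) R₀, ∃ i, ψ i z ≠ 0) (hne : ∀ i, ∃ z ∈ U, ψ i z ≠ 0)
    {e : ℕ} {G : ℂ → ℂ} (hG : ∀ z ∈ U, (∃ i, ψ i z ≠ 0) → AnalyticAt ℂ G z ∧
      ∀ j, (bord (Pi.single j 1) (VV (e + q) ψ z)).det = G z * ∏ i, ψ i z ^ e)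
    {h : ℂ → ℂ} (hh : Differentiable ℂ h) {r R : ℝ} (hR : 0 < R) (hR1 : R ≤ 1)
    (hrR : r + 2 * R ≤ R₀)
    (hb : ∀ w ∈ closedBall (0 : ℂ) (r + 2 * R), ∀ i, ‖ψ i w‖ ≤ exp (h w).re)
    {z : ℂ} (hz : z ∈ closedBall (0 : ℂ) r) :
    ‖G z‖ * nrm ψ z ^ e ≤
      KK q e * ((1 / R) ^ (q * (q + 1 + 1)) * Real.exp ((h z).re) ^ (q * (q + 1))) := by
  have hz0 : ‖z‖ ≤ r := by simpa using hz
  have hzR : z ∈ closedBall (0 : ℂ) R₀ := by
    rw [mem_closedBall, dist_zero_right]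
    linarith
  have hzU : z ∈ U := hUR hzR
  have hnear : ∀ w ∈ ball z R, closedBall w R ⊆ closedBall (0 : ℂ) (r + 2 * R) := by
    intro w hw x hx
    have hwb : dist w z < R := hw
    rw [mem_closedBall, dist_zero_right]
    have hx' : dist x w ≤ R := hx
    calc ‖x‖ = ‖(x - w) + (w - z) + z‖ := by ring_nf
      _ ≤ ‖x - w‖ + ‖w - z‖ + ‖z‖ := norm_add₃_le
      _ ≤ R + R + r := by
        rw [← dist_eq_norm, ← dist_eq_norm]
        gcongr
      _ = r + 2 * R := by ring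
  have hev : ∀ᶠ w in 𝓝[≠] z, ‖G w‖ * nrm ψ w ^ e ≤
      KK q e * ((1 / R) ^ (q * (q + 1 + 1)) * Real.exp ((h w).re) ^ (q * (q + 1))) := by
    have h1 : ∀ᶠ w in 𝓝[≠] z, ∀ i, ψ i w ≠ 0 :=
      Filter.eventually_all.mpr fun i => eventually_ne_of_analytic hU (hψ i) (hne i) hzU
    have h2 : ∀ᶠ w in 𝓝[≠] z, w ∈ ball z R :=
      nhdsWithin_le_nhds (ball_mem_nhds z hR)
    filter_upwards [h1, h2] with w hw1 hw2
    obtain ⟨j, hj⟩ := exists_nrm ψ w
    rw [hj]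
    have hsub := hnear w hw2
    have hsubU : closedBall w R ⊆ U :=
      (hsub.trans (closedBall_subset_closedBall hrR)).trans hUR
    have hwU : w ∈ U := hsubU (mem_closedBall_self hR.le)
    exact Loc.local_est hh hR hR1 (fun i x hx => hψ i x (hsubU hx))
      (fun i x hx => hb x (hsub hx) i) hw1 j ((hG w hwU ⟨j, hw1 j⟩).2 j)
  have hc1 : ContinuousAt (fun w => ‖G w‖ * nrm ψ w ^ e) z :=
    ((hG z hzU (hnc z hzR)).1.continuousAt.norm).mul
      ((continuousAt_nrm fun i => hψ i z hzU).pow e)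
  have hc2 : Continuous (fun w => KK q e * ((1 / R) ^ (q * (q + 1 + 1)) *
      Real.exp ((h w).re) ^ (q * (q + 1)))) := by
    have := hh.continuous
    fun_prop
  exact le_of_tendsto_of_tendsto (hc1.tendsto.mono_left nhdsWithin_le_nhds)
    ((hc2.tendsto z).mono_left nhdsWithin_le_nhds) hev

/-- The main inequality. -/
theorem main_ineq (hU : IsPreconnected U) {ψ : Fin (q + 1 + 1) → ℂ → ℂ}
    (hψ : ∀ i, AnalyticOnNhd ℂ (ψ i) U) {R₀ : ℝ} (hUR : closedBall 0 R₀ ⊆ U)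
    (hnc : ∀ z ∈ closedBall (0 : ℂ) R₀, ∃ i, ψ i z ≠ 0) (hne : ∀ i, ∃ z ∈ U, ψ i z ≠ 0)
    {e : ℕ} {G : ℂ → ℂ} (hG : ∀ z ∈ U, (∃ i, ψ i z ≠ 0) → AnalyticAt ℂ G z ∧
      ∀ j, (bord (Pi.single j 1) (VV (e + q) ψ z)).det = G z * ∏ i, ψ i z ^ e) (hG0 : G 0 ≠ 0)
    {r R : ℝ} (hr : 0 < r) (hR : 0 < R) (hR1 : R ≤ 1) (hrR : r + 2 * R ≤ R₀) :
    Real.log ‖G 0‖ + e * mean ψ r ≤ Real.log (KK q e) + (q * (q + 1 + 1) : ℕ) * Real.log (1 / R) +
      (q * (q + 1) : ℕ) * mean ψ (r + 2 * R) := by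
  have hψ' : ∀ i, AnalyticOnNhd ℂ (ψ i) (closedBall 0 R₀) := fun i z hz => hψ i z (hUR hz)
  suffices hsuff : ∀ ε : ℝ, 0 < ε → Real.log ‖G 0‖ + e * mean ψ r ≤ (Real.log (KK q e) +
      (q * (q + 1 + 1) : ℕ) * Real.log (1 / R) +
      (q * (q + 1) : ℕ) * mean ψ (r + 2 * R)) + ((q * (q + 1) : ℕ) + 1 : ℝ) * ε by
    apply le_of_forall_pos_le_add
    intro ε hε
    have hpos : (0 : ℝ) < (q * (q + 1) : ℕ) + 1 := by positivity
    have := hsuff (ε / ((q * (q + 1) : ℕ) + 1)) (by positivity)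
    rwa [mul_div_cancel₀ _ hpos.ne'] at this
  intro ε hε
  obtain ⟨h₃, hh₃, h3a, h3b⟩ :=
    Loc.exists_majorant_tuple hψ' hnc (r := r + 2 * R) (by positivity) hrR hε
  have hsub' : closedBall (0 : ℂ) r ⊆ closedBall 0 R₀ :=
    closedBall_subset_closedBall (by linarith)
  have hsub : sphere (0 : ℂ) r ⊆ closedBall 0 R₀ := sphere_subset_closedBall.trans hsub'
  have hu : ContinuousOn (fun z => -(e : ℝ) * Real.log (nrm ψ z)) (sphere 0 r) :=
    continuousOn_const.mul ((continuousOn_log_nrm hψ' hnc).mono hsub)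
  obtain ⟨h₄, hh₄, h4a, h4b⟩ := exists_majorant hr hu hε
  have hm4 : circleAverage (fun z => -(e : ℝ) * Real.log (nrm ψ z)) 0 r = -(e : ℝ) * mean ψ r := by
    have := circleAverage_fun_smul (𝕜 := ℝ) (a := -(e : ℝ)) (f := fun z => Real.log (nrm ψ z))
      (c := 0) (R := r)
    simpa [smul_eq_mul, mean] using this
  rw [hm4] at h4b
  -- the maximum principle
  have hGd : DifferentiableOn ℂ G (closedBall 0 r) := by
    intro z hz
    exact ((hG z (hUR (hsub' hz)) (hnc z (hsub' hz))).1).differentiableAt.differentiableWithinAt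
  have hmax := norm_le_exp_of_sphere (φ := G) (h := fun w => (q * (q + 1) : ℕ) * h₃ w + h₄ w)
    (C := KK q e * (1 / R) ^ (q * (q + 1 + 1))) hr hGd (by fun_prop) ?_ (w := 0)
    (mem_closedBall_self hr.le)
  · have hK : 0 < KK q e := KK_pos q e
    have hRi : 0 < (1 / R) ^ (q * (q + 1 + 1)) := by positivity
    have hlog := Real.log_le_log (norm_pos_iff.mpr hG0) hmax
    rw [Real.log_mul (by positivity) (Real.exp_pos _).ne', Real.log_mul hK.ne' hRi.ne',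
      Real.log_exp, Real.log_pow] at hlog
    have hre : ((q * (q + 1) : ℕ) * h₃ 0 + h₄ 0 : ℂ).re =
        (q * (q + 1) : ℕ) * (h₃ 0).re + (h₄ 0).re := by
      rw [Complex.add_re, Complex.mul_re]
      simp only [Complex.natCast_re, Complex.natCast_im, zero_mul, sub_zero]
    rw [hre] at hlog
    have h5 : ((q * (q + 1) : ℕ) : ℝ) * (h₃ 0).re ≤
        (q * (q + 1) : ℕ) * (mean ψ (r + 2 * R) + ε) := by
      gcongr
    nlinarith
  · intro w hw
    have hwr : w ∈ closedBall (0 : ℂ) r := sphere_subset_closedBall hw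
    have h1 := Loc.pointwise_est hU hψ hUR hnc hne hG hh₃ hR hR1 hrR h3a hwr
    have hn : 0 < nrm ψ w := nrm_pos (hnc w (hsub hw))
    have h2 := h4a w hw
    have hre : ((q * (q + 1) : ℕ) * h₃ w + h₄ w : ℂ).re =
        (q * (q + 1) : ℕ) * (h₃ w).re + (h₄ w).re := by
      rw [Complex.add_re, Complex.mul_re]
      simp only [Complex.natCast_re, Complex.natCast_im, zero_mul, sub_zero]
    rw [hre, Real.exp_add]
    have h3 : Real.exp ((q * (q + 1) : ℕ) * (h₃ w).re) = Real.exp (h₃ w).re ^ (q * (q + 1)) := by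
      rw [Real.exp_nat_mul]
    rw [h3]
    have h4 : (nrm ψ w ^ e)⁻¹ ≤ Real.exp (h₄ w).re := by
      have : (nrm ψ w ^ e)⁻¹ = Real.exp (-(e : ℝ) * Real.log (nrm ψ w)) := by
        rw [neg_mul, Real.exp_neg, Real.exp_nat_mul, Real.exp_log hn]
      rw [this]
      exact Real.exp_le_exp.mpr h2
    have hne' : 0 < nrm ψ w ^ e := by positivity
    have hK : 0 < KK q e := KK_pos q e
    calc ‖G w‖ = (‖G w‖ * nrm ψ w ^ e) * (nrm ψ w ^ e)⁻¹ := by
          rw [mul_assoc, mul_inv_cancel₀ hne'.ne', mul_one]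
      _ ≤ (KK q e * ((1 / R) ^ (q * (q + 1 + 1)) * Real.exp ((h₃ w).re) ^ (q * (q + 1)))) *
          Real.exp (h₄ w).re := by gcongr
      _ = _ := by ring

/-- Removal of the common zeros in a disc. -/
theorem remove_zeros {φ : Fin (q + 1 + 1) → ℂ → ℂ} {R₀ R₁ : ℝ} (hR₀ : 0 < R₀)
    (hR₁ : 5 * R₀ < R₁) (hφ : ∀ i, AnalyticOnNhd ℂ (φ i) (ball 0 R₁)) (h0 : φ 0 0 ≠ 0) :
    ∃ (g : ℂ → ℂ) (ψ : Fin (q + 1 + 1) → ℂ → ℂ), Differentiable ℂ g ∧
      (∀ i, AnalyticOnNhd ℂ (ψ i) (ball 0 R₁)) ∧ (∀ i z, φ i z = g z * ψ i z) ∧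
      ∀ z ∈ closedBall (0 : ℂ) R₀, ∃ i, ψ i z ≠ 0 := by
  classical
  have h5 : (0 : ℝ) < 5 * R₀ := by positivity
  let P : ℕ → Prop := fun n => ∃ (g : ℂ → ℂ) (ψ : Fin (q + 1 + 1) → ℂ → ℂ), Differentiable ℂ g ∧
      (∀ i, AnalyticOnNhd ℂ (ψ i) (ball 0 R₁)) ∧ (∀ i z, φ i z = g z * ψ i z) ∧
      ‖g 0‖ ≤ R₀ ^ n ∧ ∀ z ∈ sphere (0 : ℂ) (5 * R₀), (4 * R₀) ^ n ≤ ‖g z‖
  have hP0 : P 0 := ⟨fun _ => 1, φ, by fun_prop, hφ, by simp, by simp, by simp⟩
  -- bound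
  obtain ⟨M, hM⟩ : ∃ M, ∀ z ∈ sphere (0 : ℂ) (5 * R₀), ‖φ 0 z‖ ≤ M :=
    (isCompact_sphere _ _).exists_bound_of_continuousOn fun z hz =>
      (hφ 0 z (sphere_subset_closedBall.trans (closedBall_subset_ball hR₁)
        hz)).continuousAt.continuousWithinAt
  have hPn : ∀ n, P n → ‖φ 0 0‖ * 4 ^ n ≤ M := by
    rintro n ⟨g, ψ, hg, hψ, hfac, hg0, hgs⟩
    have h1 : ‖ψ 0 0‖ ≤ M / (4 * R₀) ^ n := by
      apply Complex.norm_le_of_forall_mem_frontier_norm_le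
        (isBounded_ball (x := (0 : ℂ)) (r := 5 * R₀))
      · apply DifferentiableOn.diffContOnCl
        rw [closure_ball _ h5.ne']
        exact fun w hw =>
          (hψ 0 w (closedBall_subset_ball hR₁ hw)).differentiableAt.differentiableWithinAt
      · intro z hz
        rw [frontier_ball _ h5.ne'] at hz
        have h2 := hgs z hz
        have h3 := hM z hz
        rw [hfac, norm_mul] at h3
        rw [le_div_iff₀ (by positivity)]
        calc ‖ψ 0 z‖ * (4 * R₀) ^ n ≤ ‖ψ 0 z‖ * ‖g z‖ := by gcongr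
          _ = ‖g z‖ * ‖ψ 0 z‖ := mul_comm _ _
          _ ≤ M := h3
      · exact subset_closure (mem_ball_self h5)
    have h2 : ‖φ 0 0‖ ≤ R₀ ^ n * (M / (4 * R₀) ^ n) := by
      rw [hfac, norm_mul]
      gcongr
    have h3 : R₀ ^ n * (M / (4 * R₀) ^ n) = M / 4 ^ n := by
      rw [mul_pow]
      field_simp
    rw [h3, le_div_iff₀ (by positivity)] at h2
    exact h2
  have hex : ∃ n, P n ∧ ¬ P (n + 1) := by
    by_contra hcon
    push Not at hcon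
    have hall : ∀ n, P n := fun n => Nat.rec hP0 (fun n ih => hcon n ih) n
    have htend : Filter.Tendsto (fun n : ℕ => (4 : ℝ) ^ n) Filter.atTop Filter.atTop :=
      tendsto_pow_atTop_atTop_of_one_lt (by norm_num)
    obtain ⟨n, hn⟩ := (htend.eventually_gt_atTop (M / ‖φ 0 0‖)).exists
    rw [div_lt_iff₀ (norm_pos_iff.mpr h0)] at hn
    have := hPn n (hall n)
    linarith
  obtain ⟨n, ⟨g, ψ, hg, hψ, hfac, hg0, hgs⟩, hnot⟩ := hex
  refine ⟨g, ψ, hg, hψ, hfac, ?_⟩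
  intro a ha
  by_contra hcon
  push Not at hcon
  apply hnot
  have ha' : ‖a‖ ≤ R₀ := by simpa using ha
  have haU : a ∈ ball (0 : ℂ) R₁ := by
    rw [mem_ball, dist_zero_right]
    linarith
  refine ⟨fun z => g z * (z - a), fun i => dslope (ψ i) a, by fun_prop, fun i => ?_, fun i z => ?_,
    ?_, ?_⟩
  · apply DifferentiableOn.analyticOnNhd _ isOpen_ball
    exact (Complex.differentiableOn_dslope (isOpen_ball.mem_nhds haU)).mpr
      (fun z hz => (hψ i z hz).differentiableAt.differentiableWithinAt)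
  · have := sub_smul_dslope (ψ i) a z
    rw [hcon i, sub_zero, smul_eq_mul] at this
    rw [hfac, ← this]
    ring
  · rw [norm_mul, pow_succ]
    gcongr
    simpa using ha'
  · intro z hz
    rw [norm_mul, pow_succ]
    have hz' : ‖z‖ = 5 * R₀ := by simpa using hz
    have : 4 * R₀ ≤ ‖z - a‖ := by
      have := norm_sub_norm_le z a
      linarith
    have h4 := hgs z hz
    gcongr

end Pool.Agent.H84.Cartan.Loc
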