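import Mathlib

/-!
# The Weierstrass theorem: entire functions with prescribed zeros
-/

open Metric Set Filter Topology
open scoped NNReal ENNReal

namespace Pool.Agent.H84.Cartan

/-- Holomorphic logarithms on discs. -/
lemma exists_log_ball {g : ℂ → ℂ} {c : ℂ} {R : ℝ} (hR : 0 < R)
    (hg : DifferentiableOn ℂ g (ball c R)) (h0 : ∀ z ∈ ball c R, g z ≠ 0) :
    ∃ v : ℂ → ℂ, DifferentiableOn ℂ v (ball c R) ∧ ∀ z ∈ ball c R, Complex.exp (v z) = g z := by
  have hd : DifferentiableOn ℂ (fun z => deriv g z / g z) (ball c R) :=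
    (hg.deriv isOpen_ball).div hg h0
  obtain ⟨v, hv0, hv⟩ := hd.isExactOn_ball.with_val_at c (Complex.log (g c))
  have hvd : DifferentiableOn ℂ v (ball c R) := fun z hz =>
    (hv z hz).differentiableAt.differentiableWithinAt
  refine ⟨v, hvd, ?_⟩
  have hF : ∀ z ∈ ball c R, HasDerivAt (fun z => g z * Complex.exp (-v z)) 0 z := by
    intro z hz
    have h1 : HasDerivAt g (deriv g z) z :=
      ((hg z hz).differentiableAt (isOpen_ball.mem_nhds hz)).hasDerivAt
    have h2 := h1.fun_mul ((hv z hz).fun_neg.cexp)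
    refine h2.congr_deriv ?_
    have h3 := h0 z hz
    have h4 : g z * (deriv g z / g z) = deriv g z := mul_div_cancel₀ _ h3
    linear_combination -Complex.exp (-v z) * h4
  have hc := mem_ball_self (x := c) hR
  have hconst : ∀ z ∈ ball c R, g z * Complex.exp (-v z) = 1 := by
    intro z hz
    have h1 := isOpen_ball.is_const_of_deriv_eq_zero (convex_ball c R).isPreconnected
      (fun z hz => (hF z hz).differentiableAt.differentiableWithinAt)
      (fun z hz => (hF z hz).deriv) hz hc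
    rw [h1, hv0, Complex.exp_neg, Complex.exp_log (h0 c hc), mul_inv_cancel₀ (h0 c hc)]
  intro z hz
  have h1 := hconst z hz
  rw [Complex.exp_neg, mul_inv_eq_one₀ (Complex.exp_ne_zero _)] at h1
  exact h1.symm

/-- Approximation of holomorphic functions on discs by entire functions. -/
lemma exists_entire_approx {v : ℂ → ℂ} {R R' : ℝ} (hR' : 0 ≤ R') (hRR : R' < R)
    (hv : DifferentiableOn ℂ v (ball 0 R)) {ε : ℝ} (hε : 0 < ε) :
    ∃ p : ℂ → ℂ, Differentiable ℂ p ∧ ∀ z ∈ ball (0 : ℂ) R', ‖v z - p z‖ < ε := by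
  set ρ : ℝ≥0 := ⟨(R' + R) / 2, by linarith⟩ with hρ
  have hρR : (ρ : ℝ) < R := by
    change (R' + R) / 2 < R
    linarith
  have hρR' : R' < (ρ : ℝ) := by
    change R' < (R' + R) / 2
    linarith
  have hρ0 : 0 < ρ := by
    rw [← NNReal.coe_pos]
    linarith
  have h1 : HasFPowerSeriesOnBall v (cauchyPowerSeries v 0 ρ) 0 ρ :=
    DifferentiableOn.hasFPowerSeriesOnBall (hv.mono (closedBall_subset_ball hρR)) hρ0
  have h2 := h1.tendstoUniformlyOn' (r' := ⟨R', hR'⟩) (by
    rw [ENNReal.coe_lt_coe]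
    exact hρR')
  rw [Metric.tendstoUniformlyOn_iff] at h2
  obtain ⟨n, hn⟩ := (h2 ε hε).exists
  refine ⟨fun z => (cauchyPowerSeries v 0 ρ).partialSum n (z - 0), ?_, fun z hz => ?_⟩
  · have : (fun z : ℂ => (cauchyPowerSeries v 0 ρ).partialSum n (z - 0)) =
        fun z : ℂ => ∑ k ∈ Finset.range n, z ^ k • (cauchyPowerSeries v 0 ρ).coeff k := by
      funext z
      simp only [FormalMultilinearSeries.partialSum, sub_zero]
      apply Finset.sum_congr rfl
      intro k _
      rw [FormalMultilinearSeries.apply_eq_pow_smul_coeff]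
    rw [this]
    fun_prop
  · rw [← dist_eq_norm]
    exact hn z hz

/-- **Weierstrass theorem.** -/
theorem weierstrass (k : ℂ → ℕ) (hk : ∀ R : ℝ, {z | ‖z‖ < R ∧ k z ≠ 0}.Finite) :
    ∃ H : ℂ → ℂ, Differentiable ℂ H ∧ ∀ z, ∃ b : ℂ → ℂ, AnalyticAt ℂ b z ∧ b z ≠ 0 ∧
      ∀ᶠ w in 𝓝 z, H w = (w - z) ^ (k z) * b w := by
  classical
  let S : ℕ → Finset ℂ := fun M => (hk M).toFinset
  have hS : ∀ M z, z ∈ S M ↔ ‖z‖ < M ∧ k z ≠ 0 := by
    intro M z
    simp [S]
  have hSmono : ∀ M, S M ⊆ S (M + 1) := by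
    intro M z hz
    rw [hS] at hz ⊢
    push_cast
    exact ⟨by linarith [hz.1], hz.2⟩
  let P : ℕ → ℂ → ℂ := fun M z => ∏ p ∈ S M, (z - p) ^ (k p)
  let Q : ℕ → ℂ → ℂ := fun M z => ∏ p ∈ S (M + 1) \ S M, (z - p) ^ (k p)
  have hPQ : ∀ M z, P (M + 1) z = Q M z * P M z := by
    intro M z
    exact (Finset.prod_sdiff (hSmono M)).symm
  have hPd : ∀ M, Differentiable ℂ (P M) := by
    intro M
    exact Differentiable.fun_finsetProd fun p _ => by fun_prop
  have hQd : ∀ M, Differentiable ℂ (Q M) := by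
    intro M
    exact Differentiable.fun_finsetProd fun p _ => by fun_prop
  have hQ0 : ∀ M : ℕ, ∀ z ∈ ball (0 : ℂ) M, Q M z ≠ 0 := by
    intro M z hz
    rw [mem_ball, dist_zero_right] at hz
    apply Finset.prod_ne_zero_iff.mpr
    intro p hp
    rw [Finset.mem_sdiff, hS, hS] at hp
    apply pow_ne_zero
    intro h
    apply hp.2
    rw [sub_eq_zero] at h
    rw [← h]
    exact ⟨hz, h ▸ hp.1.2⟩
  -- logs
  have hlog : ∀ M : ℕ, ∃ v : ℂ → ℂ, DifferentiableOn ℂ v (ball 0 ((M + 1 : ℕ) : ℝ)) ∧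
      ∀ z ∈ ball (0 : ℂ) ((M + 1 : ℕ) : ℝ), Complex.exp (v z) = Q (M + 1) z := by
    intro M
    exact exists_log_ball (by positivity) (hQd _).differentiableOn (hQ0 (M + 1))
  choose v hvd hv using hlog
  have hap : ∀ M : ℕ, ∃ p : ℂ → ℂ, Differentiable ℂ p ∧
      ∀ z ∈ ball (0 : ℂ) (M : ℝ), ‖v M z - p z‖ < (1 / 2) ^ M := by
    intro M
    exact exists_entire_approx (by positivity) (by push_cast; linarith) (hvd M) (by positivity)
  choose p hpd hp using hap
  -- tails
  let T : ℕ → ℂ → ℂ := fun M z => ∑' i, (v (M + i) z - p (M + i) z)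
  have hball : ∀ {M N : ℕ}, M ≤ N → ball (0 : ℂ) (M : ℝ) ⊆ ball 0 (N : ℝ) := fun h =>
    ball_subset_ball (by exact_mod_cast h)
  have hsum : Summable fun i : ℕ => ((1 : ℝ) / 2) ^ i :=
    summable_geometric_of_lt_one (by norm_num) (by norm_num)
  have hbd : ∀ M i : ℕ, ∀ z ∈ ball (0 : ℂ) (M : ℝ), ‖v (M + i) z - p (M + i) z‖ ≤ (1 / 2) ^ i := by
    intro M i z hz
    refine (hp (M + i) z (hball (by omega) hz)).le.trans ?_
    exact pow_le_pow_of_le_one (by norm_num) (by norm_num) (by omega)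
  have hTd : ∀ M, DifferentiableOn ℂ (T M) (ball 0 (M : ℝ)) := by
    intro M
    apply Complex.differentiableOn_tsum_of_summable_norm hsum
    · intro i
      exact ((hvd (M + i)).mono (hball (by omega))).sub (hpd _).differentiableOn
    · exact isOpen_ball
    · intro i z hz
      exact hbd M i z hz
  have hTs : ∀ M : ℕ, ∀ z ∈ ball (0 : ℂ) (M : ℝ), T M z = (v M z - p M z) + T (M + 1) z := by
    intro M z hz
    have hs : Summable fun i => (v (M + i) z - p (M + i) z) :=
      Summable.of_norm_bounded hsum fun i => hbd M i z hz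
    have := hs.tsum_eq_zero_add
    simp only [T]
    rw [this]
    simp only [add_zero]
    congr 1
    apply tsum_congr
    intro i
    rw [show M + (i + 1) = M + 1 + i by ring]
  let E : ℕ → ℂ → ℂ := fun M z => P (M + 1) z * Complex.exp (-∑ j ∈ Finset.range M, p j z) *
    Complex.exp (T M z)
  have hEs : ∀ M : ℕ, ∀ z ∈ ball (0 : ℂ) (M : ℝ), E (M + 1) z = E M z := by
    intro M z hz
    simp only [E]
    rw [hPQ (M + 1), ← hv M z (hball (Nat.le_succ M) hz), hTs M z hz, Finset.sum_range_succ,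
      neg_add, Complex.exp_add, Complex.exp_add, sub_eq_add_neg, Complex.exp_add, Complex.exp_neg]
    ring
  have hEn : ∀ M N : ℕ, M ≤ N → ∀ z ∈ ball (0 : ℂ) (M : ℝ), E N z = E M z := by
    intro M N hMN z hz
    induction N, hMN using Nat.le_induction with
    | base => rfl
    | succ N hN ih => rw [hEs N z (hball hN hz), ih]
  let H : ℂ → ℂ := fun z => E (⌊‖z‖⌋₊ + 1) z
  have hH : ∀ M : ℕ, ∀ z ∈ ball (0 : ℂ) (M : ℝ), H z = E M z := by
    intro M z hz
    symm
    apply hEn
    · rw [mem_ball, dist_zero_right] at hz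
      rw [Nat.add_one_le_iff]
      exact (Nat.floor_lt (norm_nonneg _)).mpr hz
    · rw [mem_ball, dist_zero_right]
      exact_mod_cast Nat.lt_floor_add_one ‖z‖
  have hEd : ∀ M, DifferentiableOn ℂ (E M) (ball 0 (M : ℝ)) := by
    intro M
    have h1 : Differentiable ℂ (fun z => ∑ j ∈ Finset.range M, p j z) :=
      Differentiable.fun_sum fun j _ => hpd j
    exact ((hPd _).differentiableOn.mul h1.neg.cexp.differentiableOn).mul (hTd M).cexp
  have hmem : ∀ z : ℂ, z ∈ ball (0 : ℂ) ((⌊‖z‖⌋₊ + 1 : ℕ) : ℝ) := by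
    intro z
    rw [mem_ball, dist_zero_right]
    exact_mod_cast Nat.lt_floor_add_one ‖z‖
  refine ⟨H, ?_, ?_⟩
  · intro z
    have h1 := (hEd (⌊‖z‖⌋₊ + 1)).differentiableAt (isOpen_ball.mem_nhds (hmem z))
    apply h1.congr_of_eventuallyEq
    filter_upwards [isOpen_ball.mem_nhds (hmem z)] with w hw
    exact hH _ w hw
  · intro z
    set M := ⌊‖z‖⌋₊ + 1 with hM
    have hz := hmem z
    rw [← hM] at hz
    refine ⟨fun w => (∏ a ∈ (S (M + 1)).erase z, (w - a) ^ (k a)) *
      (Complex.exp (-∑ j ∈ Finset.range M, p j w) * Complex.exp (T M w)), ?_, ?_, ?_⟩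
    · have h1 : Differentiable ℂ (fun z => ∑ j ∈ Finset.range M, p j z) :=
        Differentiable.fun_sum fun j _ => hpd j
      have h2 : Differentiable ℂ (fun w => ∏ a ∈ (S (M + 1)).erase z, (w - a) ^ (k a)) :=
        Differentiable.fun_finsetProd fun p _ => by fun_prop
      apply (h2.analyticAt z).mul
      apply (h1.neg.cexp.analyticAt z).mul
      exact ((hTd M).cexp.analyticAt (isOpen_ball.mem_nhds hz))
    · apply mul_ne_zero
      · apply Finset.prod_ne_zero_iff.mpr
        intro a ha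
        apply pow_ne_zero
        rw [sub_ne_zero]
        exact (Finset.ne_of_mem_erase ha).symm
      · exact mul_ne_zero (Complex.exp_ne_zero _) (Complex.exp_ne_zero _)
    · filter_upwards [isOpen_ball.mem_nhds hz] with w hw
      rw [hH M w hw]
      have h3 : P (M + 1) w = (w - z) ^ (k z) * ∏ a ∈ (S (M + 1)).erase z, (w - a) ^ (k a) := by
        by_cases hkz : k z = 0
        · have : z ∉ S (M + 1) := by
            rw [hS]
            exact fun h => h.2 hkz
          rw [hkz, pow_zero, one_mul, Finset.erase_eq_of_notMem this]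
        · have : z ∈ S (M + 1) := by
            rw [hS]
            rw [mem_ball, dist_zero_right] at hz
            refine ⟨?_, hkz⟩
            push_cast
            linarith
          exact (Finset.mul_prod_erase (S (M + 1)) (fun a => (w - a) ^ (k a)) this).symm
      simp only [E]
      rw [h3]
      ring

end Pool.Agent.H84.Cartan
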