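import Mathlib

/-!
# Derivatives of powers of entire functions
-/

open Metric Set

namespace Pool.Agent.H84.Cartan

lemma differentiable_iteratedDeriv {f : ℂ → ℂ} (hf : Differentiable ℂ f) (l : ℕ) :
    Differentiable ℂ (iteratedDeriv l f) := by
  have h : ContDiff ℂ ⊤ f := hf.contDiff
  exact (h.differentiable_iteratedDeriv l (by exact_mod_cast WithTop.coe_lt_top _))

lemma contDiffAt_of_entire {f : ℂ → ℂ} (hf : Differentiable ℂ f) (n : WithTop ℕ∞) (z : ℂ) :
    ContDiffAt ℂ n f z := hf.contDiff.contDiffAt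

/-- `(ψ^(m+l))^{(l)} = ψ^m * P` with `P` entire. -/
lemma exists_pow_factor {ψ : ℂ → ℂ} (hψ : Differentiable ℂ ψ) (l : ℕ) : ∀ m : ℕ,
    ∃ P : ℂ → ℂ, Differentiable ℂ P ∧
      ∀ z, iteratedDeriv l (fun w => ψ w ^ (m + l)) z = ψ z ^ m * P z := by
  induction l with
  | zero => intro m; exact ⟨fun _ => 1, by fun_prop, fun z => by simp⟩
  | succ l ih =>
    intro m
    obtain ⟨P, hP, hPe⟩ := ih (m + 1)
    have hdψ : Differentiable ℂ (deriv ψ) := by
      simpa [iteratedDeriv_one] using differentiable_iteratedDeriv hψ 1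
    have hdP : Differentiable ℂ (deriv P) := by
      simpa [iteratedDeriv_one] using differentiable_iteratedDeriv hP 1
    refine ⟨fun z => (m + 1 : ℂ) * deriv ψ z * P z + ψ z * deriv P z, by fun_prop, fun z => ?_⟩
    rw [iteratedDeriv_succ]
    have e1 : iteratedDeriv l (fun w => ψ w ^ (m + (l + 1))) =
        fun z => ψ z ^ (m + 1) * P z := by
      funext w
      rw [← hPe w]
      congr 2
      funext x
      congr 1
      ring
    rw [e1]
    have e2 : HasDerivAt (fun z => ψ z ^ (m + 1) * P z)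
        (((m + 1 : ℕ) : ℂ) * ψ z ^ (m + 1 - 1) * deriv ψ z * P z + ψ z ^ (m + 1) * deriv P z) z :=
      ((hψ z).hasDerivAt.pow (m + 1)).mul (hP z).hasDerivAt
    rw [e2.deriv]
    push_cast
    ring

lemma iteratedDeriv_pow_eq_zero {χ : ℂ → ℂ} (hχ : Differentiable ℂ χ) {z : ℂ} (hz : χ z = 0)
    {l m : ℕ} (hlm : l < m) : iteratedDeriv l (fun w => χ w ^ m) z = 0 := by
  obtain ⟨P, -, hP⟩ := exists_pow_factor hχ l (m - l)
  rw [Nat.sub_add_cancel hlm.le] at hP
  rw [hP, hz, zero_pow (by omega), zero_mul]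

/-- The key local bound for derivatives of a power. -/
lemma norm_iteratedDeriv_pow_le {ψ : ℂ → ℂ} (hψ : Differentiable ℂ ψ) {z : ℂ} {R : ℝ}
    (hR : 0 < R) (hR1 : R ≤ 1) (hb : ∀ w ∈ closedBall z R, ‖ψ w‖ ≤ 1) (e q l : ℕ) (hl : l ≤ q) :
    ‖iteratedDeriv l (fun w => ψ w ^ (e + q)) z‖ ≤
      (q.factorial * 3 ^ (e + q) * (1 / R) ^ q) * ‖ψ z‖ ^ e := by
  set a := ψ z with ha
  have ha1 : ‖a‖ ≤ 1 := hb z (mem_closedBall_self hR.le)
  let χ : ℂ → ℂ := fun w => ψ w - a
  have hχ : Differentiable ℂ χ := by fun_prop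
  have hχz : χ z = 0 := by simp [χ, ha]
  have hexp : (fun w => ψ w ^ (e + q)) = fun w => ∑ m ∈ Finset.range (e + q + 1),
      (a ^ (e + q - m) * ((e + q).choose m : ℂ)) * χ w ^ m := by
    funext w
    have : ψ w = χ w + a := by simp [χ]
    rw [this, add_pow]
    exact Finset.sum_congr rfl fun m _ => by ring
  rw [hexp, iteratedDeriv_fun_sum (fun m _ => contDiffAt_of_entire (by fun_prop) _ _)]
  have hterm : ∀ m ∈ Finset.range (e + q + 1),
      ‖iteratedDeriv l (fun w => (a ^ (e + q - m) * ((e + q).choose m : ℂ)) * χ w ^ m) z‖ ≤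
      (q.factorial * (1 / R) ^ q * ‖a‖ ^ e) * (2 ^ m * (1 : ℝ) ^ (e + q - m) *
        ((e + q).choose m : ℝ)) := by
    intro m hm
    rw [iteratedDeriv_const_mul_field, norm_mul, norm_mul, norm_pow]
    rcases lt_or_ge l m with hlm | hlm
    · rw [iteratedDeriv_pow_eq_zero hχ hχz hlm]
      simp only [norm_zero, mul_zero]
      positivity
    · have h1 : ‖iteratedDeriv l (fun w => χ w ^ m) z‖ ≤ l.factorial * 2 ^ m / R ^ l := by
        apply Complex.norm_iteratedDeriv_le_of_forall_mem_sphere_norm_le l hR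
        · exact (Differentiable.diffContOnCl (by fun_prop))
        · intro w hw
          rw [norm_pow]
          apply pow_le_pow_left₀ (norm_nonneg _)
          calc ‖χ w‖ ≤ ‖ψ w‖ + ‖a‖ := norm_sub_le _ _
            _ ≤ 1 + 1 := add_le_add (hb w (sphere_subset_closedBall hw)) ha1
            _ = 2 := by norm_num
      have h2 : (l.factorial : ℝ) * 2 ^ m / R ^ l ≤ q.factorial * 2 ^ m * (1 / R) ^ q := by
        rw [one_div, inv_pow, ← div_eq_mul_inv]
        have h3 : (l.factorial : ℝ) ≤ q.factorial := by exact_mod_cast Nat.factorial_le hl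
        have h4 : R ^ q ≤ R ^ l := pow_le_pow_of_le_one hR.le hR1 hl
        gcongr
      have h5 : ‖a‖ ^ (e + q - m) ≤ ‖a‖ ^ e :=
        pow_le_pow_of_le_one (norm_nonneg _) ha1 (by omega)
      have h6 : ‖((e + q).choose m : ℂ)‖ = ((e + q).choose m : ℝ) := by simp
      rw [h6]
      calc ‖a‖ ^ (e + q - m) * ((e + q).choose m : ℝ) * ‖iteratedDeriv l (fun w => χ w ^ m) z‖
          ≤ ‖a‖ ^ e * ((e + q).choose m : ℝ) * (q.factorial * 2 ^ m * (1 / R) ^ q) := by
            gcongr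
            exact h1.trans h2
        _ = _ := by ring
  refine (norm_sum_le _ _).trans ((Finset.sum_le_sum hterm).trans ?_)
  rw [← Finset.mul_sum, ← add_pow]
  norm_num
  apply le_of_eq
  ring

end Pool.Agent.H84.Cartan
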