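import Mathlib

/-!
# Bordered Wronskian-type matrices
-/

open Matrix Finset

namespace Pool.Agent.H84.Cartan

variable {n : ℕ}

/-- The square matrix with first row `v` and other rows `Q`. -/
def bord {K : Type*} (v : Fin (n + 1) → K) (Q : Fin n → Fin (n + 1) → K) :
    Matrix (Fin (n + 1)) (Fin (n + 1)) K :=
  Matrix.of (Fin.cons v Q : Fin (n + 1) → Fin (n + 1) → K)

@[simp] lemma bord_zero {K : Type*} (v : Fin (n + 1) → K) (Q : Fin n → Fin (n + 1) → K)
    (i : Fin (n + 1)) : bord v Q 0 i = v i := rfl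

@[simp] lemma bord_succ {K : Type*} (v : Fin (n + 1) → K) (Q : Fin n → Fin (n + 1) → K)
    (l : Fin n) (i : Fin (n + 1)) : bord v Q l.succ i = Q l i := by
  simp [bord]

lemma bord_eq_update (v w : Fin (n + 1) → ℂ) (Q : Fin n → Fin (n + 1) → ℂ) :
    bord v Q = (bord w Q).updateRow 0 v := by
  ext r i
  refine Fin.cases ?_ (fun l => ?_) r
  · simp
  · rw [bord_succ, updateRow_ne (Fin.succ_ne_zero l), bord_succ]

lemma det_bord_add (v w : Fin (n + 1) → ℂ) (Q : Fin n → Fin (n + 1) → ℂ) :
    (bord (v + w) Q).det = (bord v Q).det + (bord w Q).det := by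
  rw [bord_eq_update (v + w) 0, bord_eq_update v 0, bord_eq_update w 0, det_updateRow_add]

lemma det_bord_smul (a : ℂ) (v : Fin (n + 1) → ℂ) (Q : Fin n → Fin (n + 1) → ℂ) :
    (bord (a • v) Q).det = a * (bord v Q).det := by
  rw [bord_eq_update (a • v) 0, bord_eq_update v 0, det_updateRow_smul]

lemma det_bord_eq_zero {v : Fin (n + 1) → ℂ} {Q : Fin n → Fin (n + 1) → ℂ}
    {p : Fin (n + 1) → ℂ} (hp : p ≠ 0) (hv : ∑ i, v i * p i = 0)
    (hQ : ∀ l, ∑ i, Q l i * p i = 0) : (bord v Q).det = 0 := by
  rw [← Matrix.exists_mulVec_eq_zero_iff]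
  refine ⟨p, hp, ?_⟩
  ext r
  refine Fin.cases ?_ (fun l => ?_) r
  · simpa [mulVec, dotProduct] using hv
  · simpa [mulVec, dotProduct] using hQ l

/-- Cofactors are proportional to a kernel vector. -/
lemma det_bord_single_mul {Q : Fin n → Fin (n + 1) → ℂ} {p : Fin (n + 1) → ℂ}
    (hQ : ∀ l, ∑ i, Q l i * p i = 0) (j j' : Fin (n + 1)) :
    (bord (Pi.single j 1) Q).det * p j' = (bord (Pi.single j' 1) Q).det * p j := by
  by_cases hp : p = 0
  · simp [hp]
  have h : (bord (p j' • Pi.single j 1 + (-p j) • Pi.single j' 1) Q).det = 0 := by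
    apply det_bord_eq_zero hp _ hQ
    simp only [Pi.add_apply, Pi.smul_apply, smul_eq_mul, add_mul, sum_add_distrib, mul_assoc]
    rw [← mul_sum, ← mul_sum]
    simp only [Pi.single_apply, ite_mul, one_mul, zero_mul, sum_ite_eq', mem_univ, if_true]
    ring
  rw [det_bord_add, det_bord_smul, det_bord_smul] at h
  linear_combination h

/-- Column scaling. -/
lemma det_bord_single_scale (Q : Fin n → Fin (n + 1) → ℂ) (p : Fin (n + 1) → ℂ)
    (j : Fin (n + 1)) :
    p j * (bord (Pi.single j 1) (fun l i => Q l i * p i)).det =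
      (bord (Pi.single j 1) Q).det * ∏ i, p i := by
  rw [← det_bord_smul, ← det_diagonal, ← det_mul]
  congr 1
  ext r i
  rw [mul_diagonal]
  refine Fin.cases ?_ (fun l => ?_) r
  · by_cases h : i = j
    · subst h; simp
    · simp [Pi.single_eq_of_ne h]
  · simp

/-- Multiplicativity of Wronskian-type determinants. -/
lemma det_bord_mul (v : Fin (n + 1) → ℂ) {f : ℂ → ℂ} {g : Fin (n + 1) → ℂ → ℂ} {z : ℂ}
    (hf : AnalyticAt ℂ f z) (hg : ∀ i, AnalyticAt ℂ (g i) z) :
    (bord v (fun l i => iteratedDeriv l (fun w => f w * g i w) z)).det =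
      f z ^ n * (bord v (fun l i => iteratedDeriv l (g i) z)).det := by
  let L : Fin n → Fin n → ℂ := fun l m =>
    if (m : ℕ) ≤ l then ((l : ℕ).choose m : ℂ) * iteratedDeriv (l - m) f z else 0
  let M : Matrix (Fin (n + 1)) (Fin (n + 1)) ℂ :=
    bord (Pi.single 0 1) (fun l => Fin.cons 0 (L l))
  have hM : M.det = f z ^ n := by
    have htri : M.BlockTriangular OrderDual.toDual := by
      intro r i hri
      have hri' : r < i := hri
      revert hri'
      refine Fin.cases ?_ (fun l => ?_) r
      · intro h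
        simp only [M, bord_zero]
        rw [Pi.single_eq_of_ne (by rintro rfl; exact absurd h (lt_irrefl _))]
      · refine Fin.cases ?_ (fun m => ?_) i
        · intro h; exact absurd h (by simp)
        · intro h
          have : l < m := by simpa using h
          simp only [M, bord_succ, Fin.cons_succ, L]
          rw [if_neg (by have := Fin.lt_def.1 this; omega)]
    rw [det_of_lowerTriangular M htri, Fin.prod_univ_succ]
    simp [M, L]
  rw [← hM, ← det_mul]
  congr 1
  ext r i
  refine Fin.cases ?_ (fun l => ?_) r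
  · rw [mul_apply, Fin.sum_univ_succ]
    simp [M]
  · rw [mul_apply, Fin.sum_univ_succ, bord_succ]
    simp only [M, bord_succ, Fin.cons_zero, Fin.cons_succ, zero_mul, zero_add, L]
    have e1 : (fun w => f w * g i w) = fun w => g i w * f w := by funext w; ring
    rw [e1, iteratedDeriv_fun_mul (hg i).contDiffAt hf.contDiffAt]
    have e2 : ∑ m : Fin n, (if (m : ℕ) ≤ l then ((l : ℕ).choose m : ℂ) *
        iteratedDeriv (l - m) f z else 0) * iteratedDeriv m (g i) z =
        ∑ m ∈ range n, (if m ≤ l then ((l : ℕ).choose m : ℂ) *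
        iteratedDeriv (l - m) f z else 0) * iteratedDeriv m (g i) z :=
      Fin.sum_univ_eq_sum_range (fun m => (if m ≤ (l : ℕ) then ((l : ℕ).choose m : ℂ) *
        iteratedDeriv (l - m) f z else 0) * iteratedDeriv m (g i) z) n
    rw [e2]
    have hsub : range ((l : ℕ) + 1) ⊆ range n := by
      intro m hm; simp only [mem_range] at hm ⊢; omega
    rw [← sum_subset hsub]
    · apply sum_congr rfl
      intro m hm
      rw [mem_range] at hm
      rw [if_pos (by omega)]
      ring
    · intro m _ hm
      rw [mem_range] at hm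
      rw [if_neg (by omega), zero_mul]

/-- Size of a bordered determinant. -/
lemma norm_det_bord_single_le {V : Fin n → Fin (n + 1) → ℂ} {p : Fin (n + 1) → ℝ} {c : ℝ}
    (hp : ∀ i, 0 < p i) (hc : 1 ≤ c) (hV : ∀ l i, ‖V l i‖ ≤ c * p i) (j : Fin (n + 1)) :
    p j * ‖(bord (Pi.single j 1) V).det‖ ≤ ((n + 1).factorial * c ^ (n + 1)) * ∏ i, p i := by
  have hp' : ∀ i, (p i : ℂ) ≠ 0 := fun i => by exact_mod_cast (hp i).ne'
  have h := det_bord_single_scale (fun l i => V l i / p i) (fun i => (p i : ℂ)) j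
  have e : (fun l i => V l i / (p i : ℂ) * (p i : ℂ)) = V := by
    funext l i; exact div_mul_cancel₀ _ (hp' i)
  rw [e] at h
  have h2 := congrArg norm h
  rw [norm_mul, norm_mul, norm_prod] at h2
  simp only [Complex.norm_real, Real.norm_eq_abs, abs_of_pos (hp _)] at h2
  rw [h2]
  have h3 : ‖(bord (Pi.single j 1) (fun l i => V l i / (p i : ℂ))).det‖ ≤
      ((n + 1).factorial * c ^ (n + 1)) := by
    have := Matrix.det_le (A := bord (Pi.single j 1) (fun l i => V l i / (p i : ℂ)))
      (abv := IsAbsoluteValue.toAbsoluteValue (norm : ℂ → ℝ)) (x := c) ?_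
    · simpa using this
    · intro r i
      refine Fin.cases ?_ (fun l => ?_) r
      · simp only [bord_zero, IsAbsoluteValue.toAbsoluteValue_apply]
        by_cases h : i = j
        · subst h; simpa using hc
        · simp only [Pi.single_eq_of_ne h, norm_zero]; linarith
      · simp only [bord_succ, IsAbsoluteValue.toAbsoluteValue_apply, norm_div, Complex.norm_real,
          Real.norm_eq_abs, abs_of_pos (hp _)]
        rw [div_le_iff₀ (hp i)]
        exact hV l i
  exact mul_le_mul_of_nonneg_right h3 (prod_nonneg fun i _ => (hp i).le)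

end Pool.Agent.H84.Cartan
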