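import Pool.Agent.H84.Cartan.LocPow
import Pool.Agent.H84.Cartan.LocalEst

/-!
# The reduced Wronskian of powers and its local estimate, local versions
-/

open Matrix Finset Metric Filter Topology

namespace Pool.Agent.H84.Cartan.Loc

open Pool.Agent.H84.Cartan

variable {q : ℕ} {U : Set ℂ}

lemma exists_Q (hU : IsOpen U) {ψ : Fin (q + 1 + 1) → ℂ → ℂ}
    (hψ : ∀ i, AnalyticOnNhd ℂ (ψ i) U) (e : ℕ) :
    ∃ Q : Fin (q + 1) → Fin (q + 1 + 1) → ℂ → ℂ, (∀ l i, AnalyticOnNhd ℂ (Q l i) U) ∧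
      ∀ z ∈ U, ∀ l i, VV (e + q) ψ z l i = Q l i z * ψ i z ^ e := by
  have h : ∀ (l : Fin (q + 1)) (i : Fin (q + 1 + 1)), ∃ P : ℂ → ℂ, AnalyticOnNhd ℂ P U ∧
      ∀ z ∈ U, iteratedDeriv l (fun w => ψ i w ^ (e + (q - l) + l)) z =
        ψ i z ^ (e + (q - l)) * P z :=
    fun l i => Loc.exists_pow_factor hU (hψ i) l (e + (q - l))
  choose P hP hPe using h
  refine ⟨fun l i z => ψ i z ^ (q - (l : ℕ)) * P l i z, fun l i z hz => ?_, fun z hz l i => ?_⟩
  · exact ((hψ i z hz).pow _).mul (hP l i z hz)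
  · have h1 := hPe l i z hz
    have h2 : e + (q - (l : ℕ)) + l = e + q := by have := l.2; omega
    rw [h2] at h1
    unfold VV
    rw [h1, pow_add]
    ring

lemma sum_VV (hU : IsOpen U) {ψ : Fin (q + 1 + 1) → ℂ → ℂ} (hψ : ∀ i, AnalyticOnNhd ℂ (ψ i) U)
    {d : ℕ} (hsum : ∀ z ∈ U, ∑ i, ψ i z ^ d = 0) {z : ℂ} (hz : z ∈ U) (l : Fin (q + 1)) :
    ∑ i, VV d ψ z l i = 0 := by
  have h : (fun w => ∑ i, ψ i w ^ d) =ᶠ[𝓝 z] fun _ => 0 := by
    filter_upwards [hU.mem_nhds hz] with w hw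
    exact hsum w hw
  have h1 : iteratedDeriv l (fun w => ∑ i, ψ i w ^ d) z = 0 := by
    rw [h.iteratedDeriv_eq, iteratedDeriv_const]
    split_ifs <;> rfl
  rw [iteratedDeriv_fun_sum (f := fun i w => ψ i w ^ d)
    (fun i _ => ((hψ i z hz).fun_pow d).contDiffAt)] at h1
  exact h1

/-- All bordered Wronskians agree. -/
lemma det_VV_eq (hU : IsOpen U) {ψ : Fin (q + 1 + 1) → ℂ → ℂ}
    (hψ : ∀ i, AnalyticOnNhd ℂ (ψ i) U) {d : ℕ}
    (hsum : ∀ z ∈ U, ∑ i, ψ i z ^ d = 0) {z : ℂ} (hz : z ∈ U) (j j' : Fin (q + 1 + 1)) :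
    (bord (Pi.single j 1) (VV d ψ z)).det = (bord (Pi.single j' 1) (VV d ψ z)).det := by
  have := det_bord_single_mul (Q := VV d ψ z) (p := fun _ => 1)
    (fun l => by simpa using Loc.sum_VV hU hψ hsum hz l) j j'
  simpa using this

lemma analyticAt_det {n : ℕ} {z : ℂ} {A : ℂ → Matrix (Fin n) (Fin n) ℂ}
    (hA : ∀ r i, AnalyticAt ℂ (fun z => A z r i) z) :
    AnalyticAt ℂ (fun z => (A z).det) z := by
  have : (fun z => (A z).det) = fun z => ∑ σ : Equiv.Perm (Fin n),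
      (((Equiv.Perm.sign σ : ℤ) : ℂ)) * ∏ i, A z (σ i) i := by
    funext z
    rw [Matrix.det_apply']
  rw [this]
  apply Finset.analyticAt_fun_sum
  intro σ _
  apply analyticAt_const.mul
  apply Finset.analyticAt_fun_prod
  intro i _
  exact hA _ _

lemma analyticAt_det_VV {ψ : Fin (q + 1 + 1) → ℂ → ℂ} {z : ℂ}
    (hψ : ∀ i, AnalyticAt ℂ (ψ i) z) (d : ℕ) (j : Fin (q + 1 + 1)) :
    AnalyticAt ℂ (fun z => (bord (Pi.single j 1) (VV d ψ z)).det) z := by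
  apply analyticAt_det
  intro r i
  refine Fin.cases ?_ (fun l => ?_) r
  · simp only [bord_zero]
    exact analyticAt_const
  · simp only [bord_succ]
    exact analyticAt_iteratedDeriv ((hψ i).fun_pow d) l

/-- The reduced Wronskian. -/
theorem exists_G (hU : IsOpen U) {ψ : Fin (q + 1 + 1) → ℂ → ℂ}
    (hψ : ∀ i, AnalyticOnNhd ℂ (ψ i) U) (e : ℕ)
    (hsum : ∀ z ∈ U, ∑ i, ψ i z ^ (e + q) = 0) :
    ∃ G : ℂ → ℂ, ∀ z ∈ U, (∃ i, ψ i z ≠ 0) → AnalyticAt ℂ G z ∧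
      ∀ j, (bord (Pi.single j 1) (VV (e + q) ψ z)).det = G z * ∏ i, ψ i z ^ e := by
  classical
  obtain ⟨Q, hQ, hQe⟩ := exists_Q hU hψ e
  have hQsum : ∀ z ∈ U, ∀ l, ∑ i, Q l i z * ψ i z ^ e = 0 := by
    intro z hz l
    rw [← Loc.sum_VV hU hψ hsum hz l]
    exact Finset.sum_congr rfl fun i _ => (hQe z hz l i).symm
  let D : Fin (q + 1 + 1) → ℂ → ℂ := fun j z =>
    (bord (Pi.single j 1) (fun l i => Q l i z)).det
  have hD : ∀ j, ∀ z ∈ U, AnalyticAt ℂ (D j) z := by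
    intro j z hz
    apply analyticAt_det
    intro r i
    refine Fin.cases ?_ (fun l => ?_) r
    · simp only [bord_zero]
      exact analyticAt_const
    · simp only [bord_succ]
      exact hQ l i z hz
  have hDD : ∀ z ∈ U, ∀ j j', D j z * ψ j' z ^ e = D j' z * ψ j z ^ e := fun z hz j j' =>
    det_bord_single_mul (Q := fun l i => Q l i z) (p := fun i => ψ i z ^ e)
      (fun l => hQsum z hz l) j j'
  let G : ℂ → ℂ := fun z => if h : ∃ i, ψ i z ≠ 0 then D h.choose z / ψ h.choose z ^ e else 0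
  have hG : ∀ z ∈ U, ∀ j, ψ j z ≠ 0 → G z = D j z / ψ j z ^ e := by
    intro z hz j hj
    have h : ∃ i, ψ i z ≠ 0 := ⟨j, hj⟩
    simp only [G, dif_pos h]
    rw [div_eq_div_iff (pow_ne_zero _ h.choose_spec) (pow_ne_zero _ hj)]
    exact hDD z hz _ _
  refine ⟨G, fun z hzU hz => ⟨?_, ?_⟩⟩
  · obtain ⟨j, hj⟩ := hz
    have h1 : AnalyticAt ℂ (fun z => D j z / ψ j z ^ e) z :=
      (hD j z hzU).fun_div ((hψ j z hzU).fun_pow e) (pow_ne_zero _ hj)
    apply h1.congr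
    filter_upwards [(hψ j z hzU).continuousAt.eventually_ne hj, hU.mem_nhds hzU] with w hw hwU
    exact (hG w hwU j hw).symm
  · have key : ∀ j, ψ j z ≠ 0 →
        (bord (Pi.single j 1) (VV (e + q) ψ z)).det = G z * ∏ i, ψ i z ^ e := by
      intro j hj
      have h1 := det_bord_single_scale (fun l i => Q l i z) (fun i => ψ i z ^ e) j
      have h2 : (fun l i => Q l i z * ψ i z ^ e) = VV (e + q) ψ z := by
        funext l i
        exact (hQe z hzU l i).symm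
      rw [h2] at h1
      rw [hG z hzU j hj, div_mul_eq_mul_div, eq_div_iff (pow_ne_zero _ hj), mul_comm]
      exact h1
    obtain ⟨j₀, hj₀⟩ := hz
    intro j
    rw [Loc.det_VV_eq hU hψ hsum hzU j j₀]
    exact key j₀ hj₀

/-- The local estimate. -/
theorem local_est {ψ : Fin (q + 1 + 1) → ℂ → ℂ} {h : ℂ → ℂ}
    (hh : Differentiable ℂ h) {z : ℂ} {R : ℝ} (hR : 0 < R) (hR1 : R ≤ 1)
    (hψ : ∀ i, AnalyticOnNhd ℂ (ψ i) (closedBall z R))
    (hb : ∀ i, ∀ w ∈ closedBall z R, ‖ψ i w‖ ≤ Real.exp (h w).re) (hz : ∀ i, ψ i z ≠ 0)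
    {e : ℕ} (j : Fin (q + 1 + 1)) {g : ℂ}
    (hg : (bord (Pi.single j 1) (VV (e + q) ψ z)).det = g * ∏ i, ψ i z ^ e) :
    ‖g‖ * ‖ψ j z‖ ^ e ≤
      KK q e * ((1 / R) ^ (q * (q + 1 + 1)) * Real.exp ((h z).re) ^ (q * (q + 1))) := by
  have hzm : z ∈ closedBall z R := mem_closedBall_self hR.le
  set x : ℝ := Real.exp (-(h z).re) with hx
  have hx0 : 0 < x := Real.exp_pos _
  -- normalised functions
  let χ : Fin (q + 1 + 1) → ℂ → ℂ := fun i w => Complex.exp (-h w) * ψ i w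
  have hha : ∀ w, AnalyticAt ℂ (fun w => Complex.exp (-h w)) w := fun w =>
    (show Differentiable ℂ (fun w => Complex.exp (-h w)) by fun_prop).analyticAt w
  have hχ : ∀ i, AnalyticOnNhd ℂ (χ i) (closedBall z R) := fun i w hw =>
    (hha w).fun_mul (hψ i w hw)
  have hχz : ∀ i, ‖χ i z‖ = x * ‖ψ i z‖ := by
    intro i
    simp only [χ, norm_mul, Complex.norm_exp, Complex.neg_re, hx]
  have hχb : ∀ i, ∀ w ∈ closedBall z R, ‖χ i w‖ ≤ 1 := by
    intro i w hw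
    simp only [χ, norm_mul, Complex.norm_exp, Complex.neg_re, Real.exp_neg]
    rw [inv_mul_le_iff₀ (Real.exp_pos _), mul_one]
    exact hb i w hw
  set c : ℝ := q.factorial * 3 ^ (e + q) * (1 / R) ^ q with hc
  have hc1 : 1 ≤ c := by
    have h1 : (1 : ℝ) ≤ q.factorial := by
      exact_mod_cast Nat.one_le_iff_ne_zero.mpr (Nat.factorial_ne_zero q)
    have h2 : (1 : ℝ) ≤ 3 ^ (e + q) := one_le_pow₀ (by norm_num)
    have h3 : (1 : ℝ) ≤ (1 / R) ^ q :=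
      one_le_pow₀ (by rw [one_div]; exact (one_le_inv₀ hR).mpr hR1)
    rw [hc]
    nlinarith [mul_le_mul h1 h2 zero_le_one (zero_le_one.trans h1),
      mul_le_mul (mul_le_mul h1 h2 zero_le_one (zero_le_one.trans h1)) h3 zero_le_one
        (by positivity)]
  have hV : ∀ (l : Fin (q + 1)) i, ‖VV (e + q) χ z l i‖ ≤ c * (‖χ i z‖ ^ e) := fun l i =>
    Loc.norm_iteratedDeriv_pow_le (hχ i) hR hR1 (hχb i) e q l (by have := l.2; omega)
  have hp : ∀ i, 0 < ‖χ i z‖ ^ e := by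
    intro i
    rw [hχz]
    have := norm_pos_iff.mpr (hz i)
    positivity
  have h1 := norm_det_bord_single_le (V := VV (e + q) χ z) (p := fun i => ‖χ i z‖ ^ e) hp hc1 hV j
  -- the scaling
  have h2 : (bord (Pi.single j 1) (VV (e + q) χ z)).det =
      (Complex.exp (-h z) ^ (e + q)) ^ (q + 1) * (bord (Pi.single j 1) (VV (e + q) ψ z)).det := by
    have h3 := det_bord_mul (n := q + 1) (Pi.single j 1)
      (f := fun w => Complex.exp (-h w) ^ (e + q))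
      (g := fun i w => ψ i w ^ (e + q)) (z := z) ((hha z).fun_pow _)
      (fun i => (hψ i z hzm).fun_pow _)
    have h4 : (fun (l : Fin (q + 1)) (i : Fin (q + 1 + 1)) => iteratedDeriv l
        (fun w => Complex.exp (-h w) ^ (e + q) * ψ i w ^ (e + q)) z) = VV (e + q) χ z := by
      funext l i
      unfold VV
      congr 1
      funext w
      simp only [χ, mul_pow]
    rw [h4] at h3
    exact h3
  rw [h2, hg] at h1
  simp only [norm_mul, norm_pow, norm_prod, Complex.norm_exp, Complex.neg_re, hχz] at h1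
  rw [← hx] at h1
  set PP : ℝ := ∏ i, ‖ψ i z‖ ^ e with hPP
  have hPP0 : 0 < PP := Finset.prod_pos fun i _ => pow_pos (norm_pos_iff.mpr (hz i)) e
  have h5 : ∏ i, (x * ‖ψ i z‖) ^ e = x ^ (e * (q + 1 + 1)) * PP := by
    simp only [mul_pow]
    rw [Finset.prod_mul_distrib, Finset.prod_const, Finset.card_univ, Fintype.card_fin, ← pow_mul]
  rw [h5] at h1
  have h6 : (x * ‖ψ j z‖) ^ e * ((x ^ (e + q)) ^ (q + 1) * (‖g‖ * PP)) =
      (x ^ (e * (q + 1 + 1)) * PP) * ((‖g‖ * ‖ψ j z‖ ^ e) * x ^ (q * (q + 1))) := by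
    rw [mul_pow]
    have : x ^ e * (x ^ (e + q)) ^ (q + 1) = x ^ (e * (q + 1 + 1)) * x ^ (q * (q + 1)) := by
      rw [← pow_mul, ← pow_add, ← pow_add]
      congr 1
      ring
    calc x ^ e * ‖ψ j z‖ ^ e * ((x ^ (e + q)) ^ (q + 1) * (‖g‖ * PP))
        = (x ^ e * (x ^ (e + q)) ^ (q + 1)) * (‖ψ j z‖ ^ e * ‖g‖ * PP) := by ring
      _ = _ := by rw [this]; ring
  rw [h6] at h1
  have h7 : ‖g‖ * ‖ψ j z‖ ^ e * x ^ (q * (q + 1)) ≤
      (q + 1 + 1).factorial * c ^ (q + 1 + 1) := by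
    have hpos : 0 < x ^ (e * (q + 1 + 1)) * PP := by positivity
    refine le_of_mul_le_mul_left ?_ hpos
    calc _ ≤ _ := h1
      _ = _ := by ring
  have h8 : Real.exp ((h z).re) ^ (q * (q + 1)) * x ^ (q * (q + 1)) = 1 := by
    rw [← mul_pow, hx, ← Real.exp_add, add_neg_cancel, Real.exp_zero, one_pow]
  have h9 : ((q + 1 + 1).factorial : ℝ) * c ^ (q + 1 + 1) =
      KK q e * (1 / R) ^ (q * (q + 1 + 1)) := by
    rw [hc, KK, mul_pow, ← pow_mul]
    ring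
  rw [h9] at h7
  calc ‖g‖ * ‖ψ j z‖ ^ e = (‖g‖ * ‖ψ j z‖ ^ e * x ^ (q * (q + 1))) *
        Real.exp ((h z).re) ^ (q * (q + 1)) := by
        rw [mul_assoc, mul_comm (x ^ _), h8, mul_one]
    _ ≤ (KK q e * (1 / R) ^ (q * (q + 1 + 1))) * Real.exp ((h z).re) ^ (q * (q + 1)) := by
        gcongr
    _ = _ := by ring

end Pool.Agent.H84.Cartan.Loc
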