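import Pool.Agent.H84.Cartan.PowDeriv
import Pool.Agent.H84.Cartan.WronMatrix

/-!
# Derivatives of powers of analytic functions, local versions
-/

open Metric Set Filter Topology

namespace Pool.Agent.H84.Cartan.Loc

open Pool.Agent.H84.Cartan

lemma analyticAt_iteratedDeriv {f : ℂ → ℂ} {z : ℂ} (hf : AnalyticAt ℂ f z) (l : ℕ) :
    AnalyticAt ℂ (iteratedDeriv l f) z := by
  induction l with
  | zero => simpa using hf
  | succ l ih =>
    rw [iteratedDeriv_succ]
    exact ih.deriv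

/-- `(ψ^(m+l))^{(l)} = ψ^m * P` with `P` analytic. -/
lemma exists_pow_factor {U : Set ℂ} (hU : IsOpen U) {ψ : ℂ → ℂ} (hψ : AnalyticOnNhd ℂ ψ U)
    (l : ℕ) : ∀ m : ℕ, ∃ P : ℂ → ℂ, AnalyticOnNhd ℂ P U ∧
      ∀ z ∈ U, iteratedDeriv l (fun w => ψ w ^ (m + l)) z = ψ z ^ m * P z := by
  induction l with
  | zero => intro m; exact ⟨fun _ => 1, fun z _ => analyticAt_const, fun z _ => by simp⟩
  | succ l ih =>
    intro m
    obtain ⟨P, hP, hPe⟩ := ih (m + 1)
    refine ⟨fun z => (m + 1 : ℂ) * deriv ψ z * P z + ψ z * deriv P z, fun z hz => ?_,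
      fun z hz => ?_⟩
    · have h1 := (hψ z hz).deriv
      have h2 := (hP z hz).deriv
      have h3 := hψ z hz
      have h4 := hP z hz
      fun_prop
    rw [iteratedDeriv_succ]
    have e1 : iteratedDeriv l (fun w => ψ w ^ (m + (l + 1))) =ᶠ[𝓝 z]
        fun z => ψ z ^ (m + 1) * P z := by
      filter_upwards [hU.mem_nhds hz] with w hw
      rw [← hPe w hw]
      congr 2
      funext x
      congr 1
      ring
    rw [e1.deriv_eq]
    have e2 : HasDerivAt (fun z => ψ z ^ (m + 1) * P z)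
        (((m + 1 : ℕ) : ℂ) * ψ z ^ (m + 1 - 1) * deriv ψ z * P z + ψ z ^ (m + 1) * deriv P z) z :=
      ((hψ z hz).differentiableAt.hasDerivAt.pow (m + 1)).mul (hP z hz).differentiableAt.hasDerivAt
    rw [e2.deriv]
    push_cast
    ring

lemma iteratedDeriv_pow_eq_zero {χ : ℂ → ℂ} {z : ℂ} (hχ : AnalyticAt ℂ χ z) (hz : χ z = 0)
    {l m : ℕ} (hlm : l < m) : iteratedDeriv l (fun w => χ w ^ m) z = 0 := by
  obtain ⟨ρ, hρ, hball⟩ := hχ.exists_ball_analyticOnNhd
  obtain ⟨P, -, hP⟩ := exists_pow_factor isOpen_ball hball l (m - l)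
  rw [Nat.sub_add_cancel hlm.le] at hP
  rw [hP z (mem_ball_self hρ), hz, zero_pow (by omega), zero_mul]

/-- The key local bound for derivatives of a power. -/
lemma norm_iteratedDeriv_pow_le {ψ : ℂ → ℂ} {z : ℂ} {R : ℝ}
    (hψ : AnalyticOnNhd ℂ ψ (closedBall z R))
    (hR : 0 < R) (hR1 : R ≤ 1) (hb : ∀ w ∈ closedBall z R, ‖ψ w‖ ≤ 1) (e q l : ℕ) (hl : l ≤ q) :
    ‖iteratedDeriv l (fun w => ψ w ^ (e + q)) z‖ ≤
      (q.factorial * 3 ^ (e + q) * (1 / R) ^ q) * ‖ψ z‖ ^ e := by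
  have hz : z ∈ closedBall z R := mem_closedBall_self hR.le
  set a := ψ z with ha
  have ha1 : ‖a‖ ≤ 1 := hb z hz
  let χ : ℂ → ℂ := fun w => ψ w - a
  have hχ : AnalyticOnNhd ℂ χ (closedBall z R) := fun w hw => (hψ w hw).sub analyticAt_const
  have hχz : χ z = 0 := by simp [χ, ha]
  have hexp : (fun w => ψ w ^ (e + q)) = fun w => ∑ m ∈ Finset.range (e + q + 1),
      (a ^ (e + q - m) * ((e + q).choose m : ℂ)) * χ w ^ m := by
    funext w
    have : ψ w = χ w + a := by simp [χ]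
    rw [this, add_pow]
    exact Finset.sum_congr rfl fun m _ => by ring
  rw [hexp, iteratedDeriv_fun_sum
    (f := fun m w => (a ^ (e + q - m) * ((e + q).choose m : ℂ)) * χ w ^ m) (fun m _ =>
    (analyticAt_const.fun_mul ((hχ z hz).fun_pow m)).contDiffAt)]
  have hterm : ∀ m ∈ Finset.range (e + q + 1),
      ‖iteratedDeriv l (fun w => (a ^ (e + q - m) * ((e + q).choose m : ℂ)) * χ w ^ m) z‖ ≤
      (q.factorial * (1 / R) ^ q * ‖a‖ ^ e) * (2 ^ m * (1 : ℝ) ^ (e + q - m) *
        ((e + q).choose m : ℝ)) := by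
    intro m hm
    rw [iteratedDeriv_const_mul_field, norm_mul, norm_mul, norm_pow]
    rcases lt_or_ge l m with hlm | hlm
    · rw [iteratedDeriv_pow_eq_zero (hχ z hz) hχz hlm]
      simp only [norm_zero, mul_zero]
      positivity
    · have h1 : ‖iteratedDeriv l (fun w => χ w ^ m) z‖ ≤ l.factorial * 2 ^ m / R ^ l := by
        apply Complex.norm_iteratedDeriv_le_of_forall_mem_sphere_norm_le l hR
        · apply DifferentiableOn.diffContOnCl
          rw [closure_ball _ hR.ne']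
          exact fun w hw => ((hχ w hw).pow m).differentiableAt.differentiableWithinAt
        · intro w hw
          rw [norm_pow]
          apply pow_le_pow_left₀ (norm_nonneg _)
          calc ‖χ w‖ ≤ ‖ψ w‖ + ‖a‖ := norm_sub_le _ _
            _ ≤ 1 + 1 := add_le_add (hb w (sphere_subset_closedBall hw)) ha1
            _ = 2 := by norm_num
      have h2 : (l.factorial : ℝ) * 2 ^ m / R ^ l ≤ q.factorial * 2 ^ m * (1 / R) ^ q := by
        rw [one_div, inv_pow, ← div_eq_mul_inv]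
        have h3 : (l.factorial : ℝ) ≤ q.factorial := by exact_mod_cast Nat.factorial_le hl
        have h4 : R ^ q ≤ R ^ l := pow_le_pow_of_le_one hR.le hR1 hl
        gcongr
      have h5 : ‖a‖ ^ (e + q - m) ≤ ‖a‖ ^ e :=
        pow_le_pow_of_le_one (norm_nonneg _) ha1 (by omega)
      have h6 : ‖((e + q).choose m : ℂ)‖ = ((e + q).choose m : ℝ) := by simp
      rw [h6]
      calc ‖a‖ ^ (e + q - m) * ((e + q).choose m : ℝ) * ‖iteratedDeriv l (fun w => χ w ^ m) z‖
          ≤ ‖a‖ ^ e * ((e + q).choose m : ℝ) * (q.factorial * 2 ^ m * (1 / R) ^ q) := by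
            gcongr
            exact h1.trans h2
        _ = _ := by ring
  refine (norm_sum_le _ _).trans ((Finset.sum_le_sum hterm).trans ?_)
  rw [← Finset.mul_sum, ← add_pow]
  norm_num
  apply le_of_eq
  ring

end Pool.Agent.H84.Cartan.Loc
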