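import Pool.Agent.H84.Cartan.LocalEst

/-!
# The main inequality
-/

open Matrix Finset Metric Real

namespace Pool.Agent.H84.Cartan

variable {q : ℕ}

/-- The sup norm of the tuple. -/
noncomputable def nrm (ψ : Fin (q + 1 + 1) → ℂ → ℂ) (z : ℂ) : ℝ :=
  ‖(fun i => ψ i z : Fin (q + 1 + 1) → ℂ)‖

lemma norm_le_nrm (ψ : Fin (q + 1 + 1) → ℂ → ℂ) (z : ℂ) (i : Fin (q + 1 + 1)) :
    ‖ψ i z‖ ≤ nrm ψ z := norm_le_pi_norm (fun i => ψ i z) i

lemma exists_nrm (ψ : Fin (q + 1 + 1) → ℂ → ℂ) (z : ℂ) : ∃ i, nrm ψ z = ‖ψ i z‖ := by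
  obtain ⟨i, hi⟩ := Finite.exists_max (fun i => ‖ψ i z‖)
  refine ⟨i, le_antisymm ?_ (norm_le_nrm ψ z i)⟩
  exact (pi_norm_le_iff_of_nonneg (norm_nonneg _)).mpr hi

lemma nrm_pos {ψ : Fin (q + 1 + 1) → ℂ → ℂ} {z : ℂ} (h : ∃ i, ψ i z ≠ 0) : 0 < nrm ψ z := by
  obtain ⟨i, hi⟩ := h
  exact (norm_pos_iff.mpr hi).trans_le (norm_le_nrm ψ z i)

lemma continuous_nrm {ψ : Fin (q + 1 + 1) → ℂ → ℂ} (hψ : ∀ i, Differentiable ℂ (ψ i)) :
    Continuous (nrm ψ) := by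
  unfold nrm
  exact continuous_norm.comp (continuous_pi fun i => (hψ i).continuous)

lemma continuousOn_log_nrm {ψ : Fin (q + 1 + 1) → ℂ → ℂ} (hψ : ∀ i, Differentiable ℂ (ψ i))
    {R₀ : ℝ} (hnc : ∀ z ∈ closedBall (0 : ℂ) R₀, ∃ i, ψ i z ≠ 0) :
    ContinuousOn (fun z => Real.log (nrm ψ z)) (closedBall 0 R₀) :=
  ContinuousOn.log (continuous_nrm hψ).continuousOn fun z hz => (nrm_pos (hnc z hz)).ne'

/-- The mean of `log ‖ψ‖`. -/
noncomputable def mean (ψ : Fin (q + 1 + 1) → ℂ → ℂ) (r : ℝ) : ℝ :=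
  circleAverage (fun z => Real.log (nrm ψ z)) 0 r

/-- A holomorphic majorant of the tuple. -/
lemma exists_majorant_tuple {ψ : Fin (q + 1 + 1) → ℂ → ℂ} (hψ : ∀ i, Differentiable ℂ (ψ i))
    {R₀ : ℝ} (hnc : ∀ z ∈ closedBall (0 : ℂ) R₀, ∃ i, ψ i z ≠ 0) {r : ℝ} (hr : 0 < r)
    (hrR : r ≤ R₀) {ε : ℝ} (hε : 0 < ε) :
    ∃ h : ℂ → ℂ, Differentiable ℂ h ∧ (∀ w ∈ closedBall (0 : ℂ) r, ∀ i, ‖ψ i w‖ ≤ exp (h w).re) ∧
      (h 0).re ≤ mean ψ r + ε := by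
  have hsub : sphere (0 : ℂ) r ⊆ closedBall 0 R₀ :=
    sphere_subset_closedBall.trans (closedBall_subset_closedBall hrR)
  obtain ⟨h, hh, h1, h2⟩ := exists_majorant hr ((continuousOn_log_nrm hψ hnc).mono hsub) hε
  refine ⟨h, hh, fun w hw i => ?_, h2⟩
  have := norm_le_exp_of_sphere (φ := ψ i) (C := 1) hr (hψ i).differentiableOn hh
    (fun w hw => ?_) hw
  · simpa using this
  · rw [one_mul]
    refine (norm_le_nrm ψ w i).trans ?_
    rw [← Real.exp_log (nrm_pos (hnc w (hsub hw)))]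
    exact Real.exp_le_exp.mpr (h1 w hw)

lemma log_nrm_le {ψ : Fin (q + 1 + 1) → ℂ → ℂ} {h : ℂ → ℂ} {w : ℂ} (hw : ∃ i, ψ i w ≠ 0)
    (hb : ∀ i, ‖ψ i w‖ ≤ exp (h w).re) : Real.log (nrm ψ w) ≤ (h w).re := by
  obtain ⟨i, hi⟩ := exists_nrm ψ w
  rw [Real.log_le_iff_le_exp (nrm_pos hw), hi]
  exact hb i

lemma re_mean {h : ℂ → ℂ} (hh : Differentiable ℂ h) (r : ℝ) :
    circleAverage (fun w => (h w).re) 0 r = (h 0).re := by
  have h1 : circleAverage h 0 r = h 0 := hh.diffContOnCl.circleAverage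
  have h2 := Complex.reCLM.circleAverage_comp_comm (f := h) (c := 0) (R := r)
    (hh.continuous.continuousOn.circleIntegrable')
  rw [h1] at h2
  simpa [Function.comp_def] using h2

/-- `u(0) ≤ m(r)`. -/
theorem log_nrm_le_mean {ψ : Fin (q + 1 + 1) → ℂ → ℂ} (hψ : ∀ i, Differentiable ℂ (ψ i))
    {R₀ : ℝ} (hnc : ∀ z ∈ closedBall (0 : ℂ) R₀, ∃ i, ψ i z ≠ 0) {r : ℝ} (hr : 0 < r)
    (hrR : r ≤ R₀) : Real.log (nrm ψ 0) ≤ mean ψ r := by
  apply le_of_forall_pos_le_add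
  intro ε hε
  obtain ⟨h, hh, h1, h2⟩ := exists_majorant_tuple hψ hnc hr hrR hε
  exact (log_nrm_le (hnc 0 (mem_closedBall_self (hr.le.trans hrR)))
    (h1 0 (mem_closedBall_self hr.le))).trans h2

/-- Monotonicity of the mean. -/
theorem mean_mono {ψ : Fin (q + 1 + 1) → ℂ → ℂ} (hψ : ∀ i, Differentiable ℂ (ψ i))
    {R₀ : ℝ} (hnc : ∀ z ∈ closedBall (0 : ℂ) R₀, ∃ i, ψ i z ≠ 0) {r s : ℝ} (hr : 0 < r)
    (hrs : r ≤ s) (hs : s ≤ R₀) : mean ψ r ≤ mean ψ s := by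
  apply le_of_forall_pos_le_add
  intro ε hε
  obtain ⟨h, hh, h1, h2⟩ := exists_majorant_tuple hψ hnc (hr.trans_le hrs) hs hε
  refine le_trans ?_ h2
  rw [← re_mean hh r]
  have hsub : sphere (0 : ℂ) r ⊆ closedBall 0 R₀ :=
    sphere_subset_closedBall.trans (closedBall_subset_closedBall (hrs.trans hs))
  apply circleAverage_mono
  · exact ContinuousOn.circleIntegrable hr.le ((continuousOn_log_nrm hψ hnc).mono hsub)
  · exact (Complex.continuous_re.comp hh.continuous).continuousOn.circleIntegrable'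
  · intro w hw
    rw [abs_of_pos hr] at hw
    apply log_nrm_le (hnc w (hsub hw))
    exact h1 w ((sphere_subset_closedBall.trans (closedBall_subset_closedBall hrs)) hw)

/-- Zeros of nonzero entire functions are isolated. -/
lemma eventually_ne_of_entire {f : ℂ → ℂ} (hf : Differentiable ℂ f) (hne : ∃ z, f z ≠ 0) (w : ℂ) :
    ∀ᶠ z in nhdsWithin w {w}ᶜ, f z ≠ 0 := by
  rcases (hf.analyticAt w).eventually_eq_zero_or_eventually_ne_zero with h | h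
  · exfalso
    obtain ⟨z, hz⟩ := hne
    have hA : AnalyticOnNhd ℂ f Set.univ := fun z _ => hf.analyticAt z
    exact hz (hA.eqOn_zero_of_preconnected_of_eventuallyEq_zero isPreconnected_univ
      (Set.mem_univ w) h (Set.mem_univ z))
  · exact h

/-- The pointwise estimate, including at the zeros. -/
theorem pointwise_est {ψ : Fin (q + 1 + 1) → ℂ → ℂ} (hψ : ∀ i, Differentiable ℂ (ψ i))
    {R₀ : ℝ} (hnc : ∀ z ∈ closedBall (0 : ℂ) R₀, ∃ i, ψ i z ≠ 0) (hne : ∀ i, ∃ z, ψ i z ≠ 0)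
    {e : ℕ} {G : ℂ → ℂ} (hG : ∀ z, (∃ i, ψ i z ≠ 0) → DifferentiableAt ℂ G z ∧
      ∀ j, (bord (Pi.single j 1) (VV (e + q) ψ z)).det = G z * ∏ i, ψ i z ^ e)
    {h : ℂ → ℂ} (hh : Differentiable ℂ h) {r R : ℝ} (hR : 0 < R) (hR1 : R ≤ 1)
    (hrR : r + 2 * R ≤ R₀)
    (hb : ∀ w ∈ closedBall (0 : ℂ) (r + 2 * R), ∀ i, ‖ψ i w‖ ≤ exp (h w).re)
    {z : ℂ} (hz : z ∈ closedBall (0 : ℂ) r) :
    ‖G z‖ * nrm ψ z ^ e ≤
      KK q e * ((1 / R) ^ (q * (q + 1 + 1)) * Real.exp ((h z).re) ^ (q * (q + 1))) := by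
  have hz0 : ‖z‖ ≤ r := by simpa using hz
  have hev : ∀ᶠ w in nhdsWithin z {z}ᶜ, ‖G w‖ * nrm ψ w ^ e ≤
      KK q e * ((1 / R) ^ (q * (q + 1 + 1)) * Real.exp ((h w).re) ^ (q * (q + 1))) := by
    have h1 : ∀ᶠ w in nhdsWithin z {z}ᶜ, ∀ i, ψ i w ≠ 0 :=
      Filter.eventually_all.mpr fun i => eventually_ne_of_entire (hψ i) (hne i) z
    have h2 : ∀ᶠ w in nhdsWithin z {z}ᶜ, w ∈ ball z R :=
      nhdsWithin_le_nhds (ball_mem_nhds z hR)
    filter_upwards [h1, h2] with w hw1 hw2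
    obtain ⟨j, hj⟩ := exists_nrm ψ w
    rw [hj]
    have hwb : dist w z < R := hw2
    apply local_est hψ hh hR hR1 _ hw1 j ((hG w ⟨j, hw1 j⟩).2 j)
    intro i x hx
    apply hb x
    rw [mem_closedBall, dist_zero_right]
    have hx' : dist x w ≤ R := hx
    calc ‖x‖ = ‖(x - w) + (w - z) + z‖ := by ring_nf
      _ ≤ ‖x - w‖ + ‖w - z‖ + ‖z‖ := norm_add₃_le
      _ ≤ R + R + r := by
        rw [← dist_eq_norm, ← dist_eq_norm]
        gcongr
      _ = r + 2 * R := by ring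
  have hzR : z ∈ closedBall (0 : ℂ) R₀ := by
    rw [mem_closedBall, dist_zero_right]
    linarith
  have hc1 : ContinuousAt (fun w => ‖G w‖ * nrm ψ w ^ e) z :=
    ((hG z (hnc z hzR)).1.continuousAt.norm).mul ((continuous_nrm hψ).continuousAt.pow e)
  have hc2 : Continuous (fun w => KK q e * ((1 / R) ^ (q * (q + 1 + 1)) *
      Real.exp ((h w).re) ^ (q * (q + 1)))) := by
    have := hh.continuous
    fun_prop
  exact le_of_tendsto_of_tendsto (hc1.tendsto.mono_left nhdsWithin_le_nhds)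
    ((hc2.tendsto z).mono_left nhdsWithin_le_nhds) hev

/-- The main inequality. -/
theorem main_ineq {ψ : Fin (q + 1 + 1) → ℂ → ℂ} (hψ : ∀ i, Differentiable ℂ (ψ i))
    {R₀ : ℝ} (hnc : ∀ z ∈ closedBall (0 : ℂ) R₀, ∃ i, ψ i z ≠ 0) (hne : ∀ i, ∃ z, ψ i z ≠ 0)
    {e : ℕ} {G : ℂ → ℂ} (hG : ∀ z, (∃ i, ψ i z ≠ 0) → DifferentiableAt ℂ G z ∧
      ∀ j, (bord (Pi.single j 1) (VV (e + q) ψ z)).det = G z * ∏ i, ψ i z ^ e) (hG0 : G 0 ≠ 0)
    {r R : ℝ} (hr : 0 < r) (hR : 0 < R) (hR1 : R ≤ 1) (hrR : r + 2 * R ≤ R₀) :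
    Real.log ‖G 0‖ + e * mean ψ r ≤ Real.log (KK q e) + (q * (q + 1 + 1) : ℕ) * Real.log (1 / R) +
      (q * (q + 1) : ℕ) * mean ψ (r + 2 * R) := by
  suffices hsuff : ∀ ε : ℝ, 0 < ε → Real.log ‖G 0‖ + e * mean ψ r ≤ (Real.log (KK q e) +
      (q * (q + 1 + 1) : ℕ) * Real.log (1 / R) +
      (q * (q + 1) : ℕ) * mean ψ (r + 2 * R)) + ((q * (q + 1) : ℕ) + 1 : ℝ) * ε by
    apply le_of_forall_pos_le_add
    intro ε hε
    have hpos : (0 : ℝ) < (q * (q + 1) : ℕ) + 1 := by positivity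
    have := hsuff (ε / ((q * (q + 1) : ℕ) + 1)) (by positivity)
    rwa [mul_div_cancel₀ _ hpos.ne'] at this
  intro ε hε
  obtain ⟨h₃, hh₃, h3a, h3b⟩ := exists_majorant_tuple hψ hnc (r := r + 2 * R) (by positivity) hrR hε
  have hsub : sphere (0 : ℂ) r ⊆ closedBall 0 R₀ :=
    sphere_subset_closedBall.trans (closedBall_subset_closedBall (by linarith))
  have hu : ContinuousOn (fun z => -(e : ℝ) * Real.log (nrm ψ z)) (sphere 0 r) :=
    continuousOn_const.mul ((continuousOn_log_nrm hψ hnc).mono hsub)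
  obtain ⟨h₄, hh₄, h4a, h4b⟩ := exists_majorant hr hu hε
  have hm4 : circleAverage (fun z => -(e : ℝ) * Real.log (nrm ψ z)) 0 r = -(e : ℝ) * mean ψ r := by
    have := circleAverage_fun_smul (𝕜 := ℝ) (a := -(e : ℝ)) (f := fun z => Real.log (nrm ψ z))
      (c := 0) (R := r)
    simpa [smul_eq_mul, mean] using this
  rw [hm4] at h4b
  -- the maximum principle
  have hGd : DifferentiableOn ℂ G (closedBall 0 r) := by
    intro z hz
    exact ((hG z (hnc z (closedBall_subset_closedBall (by linarith) hz))).1).differentiableWithinAt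
  have hmax := norm_le_exp_of_sphere (φ := G) (h := fun w => (q * (q + 1) : ℕ) * h₃ w + h₄ w)
    (C := KK q e * (1 / R) ^ (q * (q + 1 + 1))) hr hGd (by fun_prop) ?_ (w := 0)
    (mem_closedBall_self hr.le)
  · have hK : 0 < KK q e := KK_pos q e
    have hRi : 0 < (1 / R) ^ (q * (q + 1 + 1)) := by positivity
    have hlog := Real.log_le_log (norm_pos_iff.mpr hG0) hmax
    rw [Real.log_mul (by positivity) (Real.exp_pos _).ne', Real.log_mul hK.ne' hRi.ne',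
      Real.log_exp, Real.log_pow] at hlog
    have hre : ((q * (q + 1) : ℕ) * h₃ 0 + h₄ 0 : ℂ).re = (q * (q + 1) : ℕ) * (h₃ 0).re + (h₄ 0).re := by
      rw [Complex.add_re, Complex.mul_re]
      simp only [Complex.natCast_re, Complex.natCast_im, zero_mul, sub_zero]
    rw [hre] at hlog
    have h5 : ((q * (q + 1) : ℕ) : ℝ) * (h₃ 0).re ≤ (q * (q + 1) : ℕ) * (mean ψ (r + 2 * R) + ε) := by
      gcongr
    nlinarith
  · intro w hw
    have hwr : w ∈ closedBall (0 : ℂ) r := sphere_subset_closedBall hw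
    have h1 := pointwise_est hψ hnc hne hG hh₃ hR hR1 hrR h3a hwr
    have hn : 0 < nrm ψ w := nrm_pos (hnc w (hsub hw))
    have h2 := h4a w hw
    have hre : ((q * (q + 1) : ℕ) * h₃ w + h₄ w : ℂ).re = (q * (q + 1) : ℕ) * (h₃ w).re + (h₄ w).re := by
      rw [Complex.add_re, Complex.mul_re]
      simp only [Complex.natCast_re, Complex.natCast_im, zero_mul, sub_zero]
    rw [hre, Real.exp_add]
    have h3 : Real.exp ((q * (q + 1) : ℕ) * (h₃ w).re) = Real.exp (h₃ w).re ^ (q * (q + 1)) := by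
      rw [Real.exp_nat_mul]
    rw [h3]
    have h4 : (nrm ψ w ^ e)⁻¹ ≤ Real.exp (h₄ w).re := by
      have : (nrm ψ w ^ e)⁻¹ = Real.exp (-(e : ℝ) * Real.log (nrm ψ w)) := by
        rw [neg_mul, Real.exp_neg, Real.exp_nat_mul, Real.exp_log hn]
      rw [this]
      exact Real.exp_le_exp.mpr h2
    have hne' : 0 < nrm ψ w ^ e := by positivity
    have hK : 0 < KK q e := KK_pos q e
    calc ‖G w‖ = (‖G w‖ * nrm ψ w ^ e) * (nrm ψ w ^ e)⁻¹ := by
          rw [mul_assoc, mul_inv_cancel₀ hne'.ne', mul_one]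
      _ ≤ (KK q e * ((1 / R) ^ (q * (q + 1 + 1)) * Real.exp ((h₃ w).re) ^ (q * (q + 1)))) *
          Real.exp (h₄ w).re := by gcongr
      _ = _ := by ring

end Pool.Agent.H84.Cartan
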