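import Mathlib

/-!
# Harmonic majorants on circles by real parts of entire functions

`exists_majorant`: a continuous real function on a circle is bounded above on the circle by the
real part of an entire function whose value at the centre is at most the mean plus `ε`.
`norm_le_exp_of_sphere`: maximum principle relative to such a majorant.
-/

open Metric Set Real Complex

namespace Pool.Agent.H84.Cartan

local instance : Fact (0 < 2 * Real.pi) := ⟨by positivity⟩

/-- A trigonometric polynomial is `h₁(w) + conj (h₂(w))` on the unit circle, with `h₁,h₂` entire. -/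
lemma exists_split (P : C(AddCircle (2 * π), ℂ))
    (hP : P ∈ Submodule.span ℂ (Set.range (@fourier (2 * π)))) :
    ∃ h₁ h₂ : ℂ → ℂ, Differentiable ℂ h₁ ∧ Differentiable ℂ h₂ ∧
      ∀ θ : ℝ, P (θ : AddCircle (2 * π)) =
        h₁ (Complex.exp (θ * I)) + (starRingEnd ℂ) (h₂ (Complex.exp (θ * I))) := by
  induction hP using Submodule.span_induction with
  | mem P hP =>
    obtain ⟨n, rfl⟩ := hP
    have key : ∀ θ : ℝ, (fourier n (θ : AddCircle (2 * π)) : ℂ) = Complex.exp (θ * I) ^ n := by
      intro θ
      rw [fourier_coe_apply, ← Complex.exp_int_mul]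
      congr 1
      have : (π : ℂ) ≠ 0 := by exact_mod_cast Real.pi_ne_zero
      push_cast
      field_simp
    rcases le_or_gt 0 n with hn | hn
    · refine ⟨fun w => w ^ n.toNat, fun _ => 0, by fun_prop, by fun_prop, fun θ => ?_⟩
      rw [key]
      simp only [map_zero, add_zero]
      rw [← zpow_natCast, Int.toNat_of_nonneg hn]
    · refine ⟨fun _ => 0, fun w => w ^ (-n).toNat, by fun_prop, by fun_prop, fun θ => ?_⟩
      rw [key]
      simp only [zero_add, map_pow]
      rw [← Complex.exp_conj]
      simp only [map_mul, conj_ofReal, conj_I]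
      rw [← zpow_natCast, Int.toNat_of_nonneg (by omega), ← Complex.exp_int_mul,
        ← Complex.exp_int_mul]
      congr 1
      push_cast
      ring
  | zero => exact ⟨fun _ => 0, fun _ => 0, by fun_prop, by fun_prop, fun θ => by simp⟩
  | add P Q _ _ hP hQ =>
    obtain ⟨a, b, ha, hb, hab⟩ := hP
    obtain ⟨c, d, hc, hd, hcd⟩ := hQ
    refine ⟨fun w => a w + c w, fun w => b w + d w, by fun_prop, by fun_prop, fun θ => ?_⟩
    rw [ContinuousMap.add_apply, hab, hcd, map_add]
    ring
  | smul r P _ hP =>
    obtain ⟨a, b, ha, hb, hab⟩ := hP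
    refine ⟨fun w => r * a w, fun w => (starRingEnd ℂ) r * b w, by fun_prop, by fun_prop,
      fun θ => ?_⟩
    rw [ContinuousMap.smul_apply, hab, map_mul, Complex.conj_conj, smul_eq_mul]
    ring

/-- Harmonic majorant on a circle. -/
theorem exists_majorant {u : ℂ → ℝ} {c : ℂ} {R : ℝ} (hR : 0 < R)
    (hu : ContinuousOn u (sphere c R)) {ε : ℝ} (hε : 0 < ε) :
    ∃ h : ℂ → ℂ, Differentiable ℂ h ∧ (∀ w ∈ sphere c R, u w ≤ (h w).re) ∧
      (h c).re ≤ circleAverage u c R + ε := by
  -- the function on the circle
  have hcont : Continuous fun θ : ℝ => ((u (circleMap c R θ) + ε / 2 : ℝ) : ℂ) := by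
    have h1 : Continuous fun θ : ℝ => u (circleMap c R θ) :=
      hu.comp_continuous (continuous_circleMap c R) (fun θ => circleMap_mem_sphere c hR.le θ)
    exact Complex.continuous_ofReal.comp (h1.add continuous_const)
  have hper : Function.Periodic (fun θ : ℝ => ((u (circleMap c R θ) + ε / 2 : ℝ) : ℂ))
      (2 * π) := by
    intro θ
    simp only
    rw [periodic_circleMap c R θ]
  let F : C(AddCircle (2 * π), ℂ) :=
    ⟨hper.lift, hcont.quotient_lift _⟩
  have hF : ∀ θ : ℝ, F (θ : AddCircle (2 * π)) = ((u (circleMap c R θ) + ε / 2 : ℝ) : ℂ) :=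
    fun θ => rfl
  have hmem : F ∈ (Submodule.span ℂ (Set.range (@fourier (2 * π)))).topologicalClosure := by
    rw [span_fourier_closure_eq_top]; trivial
  rw [← SetLike.mem_coe, Submodule.topologicalClosure_coe, Metric.mem_closure_iff] at hmem
  obtain ⟨P, hP, hPF⟩ := hmem (ε / 2) (by positivity)
  obtain ⟨h₁, h₂, d₁, d₂, hh⟩ := exists_split P hP
  have hRc : (R : ℂ) ≠ 0 := by exact_mod_cast hR.ne'
  refine ⟨fun w => h₁ ((w - c) / R) + h₂ ((w - c) / R), by fun_prop, ?_, ?_⟩
  · intro w hw
    obtain ⟨θ, rfl⟩ : ∃ θ, circleMap c R θ = w := by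
      have := image_circleMap_Ioc c (R := R) 
      rw [abs_of_pos hR] at this
      rw [← this] at hw
      obtain ⟨θ, -, h⟩ := hw
      exact ⟨θ, h⟩
    have e1 : (circleMap c R θ - c) / R = Complex.exp (θ * I) := by
      simp [circleMap, hRc]
    simp only [e1]
    have e2 : (P (θ : AddCircle (2 * π))).re =
        (h₁ (Complex.exp (θ * I)) + h₂ (Complex.exp (θ * I))).re := by
      rw [hh]; simp
    have e3 : ‖F (θ : AddCircle (2 * π)) - P (θ : AddCircle (2 * π))‖ < ε / 2 := by
      rw [← dist_eq_norm]
      exact lt_of_le_of_lt (ContinuousMap.dist_apply_le_dist _) hPF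
    have e4 := (Complex.abs_re_le_norm _).trans_lt e3
    rw [Complex.sub_re, hF, Complex.ofReal_re, abs_lt] at e4
    rw [← e2]
    linarith [e4.2]
  · have hd : Differentiable ℂ (fun w => h₁ ((w - c) / R) + h₂ ((w - c) / R)) := by fun_prop
    have hmv : circleAverage (fun w => h₁ ((w - c) / R) + h₂ ((w - c) / R)) c R =
        (fun w => h₁ ((w - c) / R) + h₂ ((w - c) / R)) c :=
      hd.diffContOnCl.circleAverage
    have hre : (fun w => h₁ ((w - c) / R) + h₂ ((w - c) / R)) c =
        circleAverage (fun w => h₁ ((w - c) / R) + h₂ ((w - c) / R)) c R := hmv.symm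
    have h3 : ((fun w => h₁ ((w - c) / R) + h₂ ((w - c) / R)) c).re =
        circleAverage (fun w => (h₁ ((w - c) / R) + h₂ ((w - c) / R)).re) c R := by
      rw [hre]
      have := Complex.reCLM.circleAverage_comp_comm (f := fun w => h₁ ((w - c) / R) + h₂ ((w - c) / R))
        (c := c) (R := R) (hd.continuous.continuousOn.circleIntegrable')
      simpa [Function.comp_def] using this.symm
    change ((fun w => h₁ ((w - c) / R) + h₂ ((w - c) / R)) c).re ≤ _
    rw [h3]
    have hui : CircleIntegrable u c R := by
      apply ContinuousOn.circleIntegrable hR.le hu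
    have hle : circleAverage (fun w => (h₁ ((w - c) / R) + h₂ ((w - c) / R)).re) c R ≤
        circleAverage (fun w => u w + ε) c R := by
      apply circleAverage_mono
      · exact (Complex.continuous_re.comp hd.continuous).continuousOn.circleIntegrable'
      · exact hui.add (circleIntegrable_const _ _ _)
      · intro w hw
        rw [abs_of_pos hR] at hw
        obtain ⟨θ, rfl⟩ : ∃ θ, circleMap c R θ = w := by
          have := image_circleMap_Ioc c (R := R)
          rw [abs_of_pos hR] at this
          rw [← this] at hw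
          obtain ⟨θ, -, h⟩ := hw
          exact ⟨θ, h⟩
        have e1 : (circleMap c R θ - c) / R = Complex.exp (θ * I) := by
          simp [circleMap, hRc]
        rw [e1]
        have e2 : (P (θ : AddCircle (2 * π))).re =
            (h₁ (Complex.exp (θ * I)) + h₂ (Complex.exp (θ * I))).re := by
          rw [hh]; simp
        have e3 : ‖F (θ : AddCircle (2 * π)) - P (θ : AddCircle (2 * π))‖ < ε / 2 := by
          rw [← dist_eq_norm]
          exact lt_of_le_of_lt (ContinuousMap.dist_apply_le_dist _) hPF
        have e4 := (Complex.abs_re_le_norm _).trans_lt e3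
        rw [Complex.sub_re, hF, Complex.ofReal_re, abs_lt] at e4
        rw [← e2]
        linarith [e4.1]
    refine hle.trans ?_
    rw [circleAverage_fun_add hui (circleIntegrable_const _ _ _), circleAverage_const]

/-- Maximum principle relative to a majorant. -/
theorem norm_le_exp_of_sphere {φ h : ℂ → ℂ} {c : ℂ} {R : ℝ} (hR : 0 < R)
    (hφ : DifferentiableOn ℂ φ (closedBall c R)) (hh : Differentiable ℂ h) {C : ℝ}
    (hle : ∀ w ∈ sphere c R, ‖φ w‖ ≤ C * Real.exp (h w).re) {w : ℂ} (hw : w ∈ closedBall c R) :
    ‖φ w‖ ≤ C * Real.exp (h w).re := by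
  have hd : DiffContOnCl ℂ (fun w => φ w * Complex.exp (-h w)) (ball c R) := by
    refine ⟨?_, ?_⟩
    · exact (hφ.mono ball_subset_closedBall).mul (by fun_prop)
    · rw [closure_ball _ hR.ne']
      exact hφ.continuousOn.mul
        (Complex.continuous_exp.comp hh.continuous.neg).continuousOn
  have h1 : ∀ z ∈ frontier (ball c R), ‖φ z * Complex.exp (-h z)‖ ≤ C := by
    intro z hz
    rw [frontier_ball _ hR.ne'] at hz
    rw [norm_mul, Complex.norm_exp, Complex.neg_re, Real.exp_neg, ← div_eq_mul_inv,
      div_le_iff₀ (Real.exp_pos _)]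
    exact hle z hz
  have h2 := Complex.norm_le_of_forall_mem_frontier_norm_le isBounded_ball hd h1
    (z := w) (by rw [closure_ball _ hR.ne']; exact hw)
  rwa [norm_mul, Complex.norm_exp, Complex.neg_re, Real.exp_neg, ← div_eq_mul_inv,
      div_le_iff₀ (Real.exp_pos _)] at h2

end Pool.Agent.H84.Cartan
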